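import Pool.Agent.Lib.OddEight.Cir

/-! The choice of a leaf and of a segment which meets all the other leaves. -/

set_option autoImplicit false

namespace OddEight

open Finset Classical

variable {V E : Type*} {s t : E → V} {vs : Finset V} {es F P : Finset E} {C : Finset V}

/-- a set of `Br` contains a leaf -/
private theorem br_leaf {X : Finset V} (hX : Br s t vs es F C P X) :
    ∃ L ⊆ X, Leaf s t vs es F C P L := by
  obtain ⟨n, hn⟩ : ∃ n, X.card = n := ⟨_, rfl⟩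
  induction n using Nat.strong_induction_on generalizing X with
  | _ n ih =>
    by_cases hl : Leaf s t vs es F C P X
    · exact ⟨X, Subset.refl _, hl⟩
    · have h1 : ∃ Z ⊆ X, Br s t vs es F C P Z ∧ Z ≠ X := by
        by_contra hc
        refine hl ⟨hX, fun Z hZ hb => ?_⟩
        by_contra hne
        exact hc ⟨Z, hZ, hb, hne⟩
      obtain ⟨Z, hZ, hb, hne⟩ := h1
      have h2 : Z.card < n := by
        rw [← hn]
        exact card_lt_card ⟨hZ, fun k => hne (Subset.antisymm hZ k)⟩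
      obtain ⟨L, hL, hL2⟩ := ih _ h2 hb rfl
      exact ⟨L, hL.trans hZ, hL2⟩

private theorem br_compl (h : Hyp s t vs es F) {X : Finset V} (hX : Br s t vs es F C P X) :
    Br s t vs es F C P (vs \ X) := by
  refine ⟨sdiff_subset, ?_⟩
  rw [cn_compl (fun g hg => h.ends g ?_) X]
  · exact hX.2
  · unfold hh at hg
    exact (mem_sdiff.1 hg).1

private theorem br_ne {X : Finset V} (hX : Br s t vs es F C P X) : X.Nonempty := by
  rw [nonempty_iff_ne_empty]
  rintro rfl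
  have h1 := hX.2
  have h2 : cn s t (hh s es F C P) ∅ = 0 := by
    rw [cn_eq_zero]
    intro g _ hc
    exact hc (by simp)
  omega

/-- connected segments -/
private def Con (s t : E → V) (es F : Finset E) (S : Finset V) : Prop :=
  ∀ W ⊆ S, W.Nonempty → (∀ g ∈ es, g ∉ F → s g ∈ S → t g ∈ S → ¬ cr s t W g) → W = S

theorem choice_of (h : Hyp s t vs es F) (c : Cir s t vs es F C P)
    (hseg : ∀ {X : Finset V}, X ⊆ vs → (∀ g ∈ P, ¬ cr s t X g) → (C ∩ X).Nonempty →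
      ∀ {v : V}, v ∈ C → v ∉ X → ∃ S, Seg s t es F C P X S ∧ v ∈ S ∧ ∀ W ⊆ S, W.Nonempty →
      (∀ g ∈ es, g ∉ F → s g ∈ S → t g ∈ S → ¬ cr s t W g) → W = S)
    (hfac : ∀ {X : Finset V}, Leaf s t vs es F C P X →
      (C ∩ X).Nonempty ∧ (∀ g ∈ P, ¬ cr s t X g))
    (hdis : ∀ {X Z : Finset V}, Leaf s t vs es F C P X → Leaf s t vs es F C P Z → X ≠ Z →
      Disjoint X Z)
    (hex : ∃ X, Br s t vs es F C P X) (e : E) :
    ∃ X S, Leaf s t vs es F C P X ∧ ¬ (s e ∈ X ∧ t e ∈ X) ∧ Seg s t es F C P X S ∧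
      ∀ Z, Br s t vs es F C P Z → Disjoint Z X → (Z ∩ S).Nonempty := by
  have hcl : ∀ g ∈ es, g ∉ F → s g ∈ C ∨ t g ∈ C → s g ∈ C ∧ t g ∈ C := by
    intro g hg hgF k
    have h1 : ¬ cr s t C g := fun hc => hgF (c.comp.cl.2 g hg hc)
    unfold cr at h1
    push Not at h1
    tauto
  -- the family
  let Q : Finset V × Finset V → Prop := fun A =>
    Leaf s t vs es F C P A.1 ∧ ¬ (s e ∈ A.1 ∧ t e ∈ A.1) ∧ Seg s t es F C P A.1 A.2 ∧
      Con s t es F A.2 ∧ A.2.Nonempty ∧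
      ∀ L, Leaf s t vs es F C P L → s e ∈ L → t e ∈ L → (L ∩ A.2).Nonempty
  have hQ : ∃ A, Q A := by
    obtain ⟨X0, hX0⟩ := hex
    obtain ⟨L1, hL1, l1⟩ := br_leaf hX0
    obtain ⟨L2, hL2, l2⟩ := br_leaf (br_compl h hX0)
    have hne : L1 ≠ L2 := by
      rintro rfl
      obtain ⟨v, hv⟩ := br_ne l1.1
      exact (mem_sdiff.1 (hL2 hv)).2 (hL1 hv)
    by_cases hin : ∃ L, Leaf s t vs es F C P L ∧ s e ∈ L ∧ t e ∈ L
    · obtain ⟨L, l0, i1, i2⟩ := hin
      obtain ⟨X, lX, hXL⟩ : ∃ X, Leaf s t vs es F C P X ∧ X ≠ L := by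
        by_cases hh : L1 = L
        · exact ⟨L2, l2, fun k => hne (hh.trans k.symm)⟩
        · exact ⟨L1, l1, hh⟩
      have hd := hdis lX l0 hXL
      obtain ⟨⟨v, hv⟩, -⟩ := hfac l0
      obtain ⟨v1, v2⟩ := mem_inter.1 hv
      have v3 : v ∉ X := fun k => disjoint_left.1 hd k v2
      obtain ⟨m1, m2⟩ := hfac lX
      obtain ⟨S, s1, s2, s3⟩ := hseg lX.1.1 m2 m1 v1 v3
      refine ⟨(X, S), lX, fun k => disjoint_left.1 hd k.1 i1, s1, s3, ⟨v, s2⟩, ?_⟩
      intro L' l' j1 j2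
      by_cases hh : L' = L
      · rw [hh]; exact ⟨v, mem_inter.2 ⟨v2, s2⟩⟩
      · exact absurd j1 (fun k => disjoint_left.1 (hdis l' l0 hh) k i1)
    · have hd := hdis l1 l2 hne
      obtain ⟨⟨v, hv⟩, -⟩ := hfac l2
      obtain ⟨v1, v2⟩ := mem_inter.1 hv
      have v3 : v ∉ L1 := fun k => disjoint_left.1 hd k v2
      obtain ⟨m1, m2⟩ := hfac l1
      obtain ⟨S, s1, s2, s3⟩ := hseg l1.1.1 m2 m1 v1 v3
      refine ⟨(L1, S), l1, fun k => hin ⟨L1, l1, k.1, k.2⟩, s1, s3, ⟨v, s2⟩, ?_⟩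
      intro L' l' j1 j2
      exact absurd ⟨L', l', j1, j2⟩ hin
  -- a pair with largest segment
  obtain ⟨A, hA, hmax⟩ : ∃ A, Q A ∧ ∀ B, Q B → B.2.card ≤ A.2.card := by
    have hb : ∀ B, Q B → B.2.card ≤ C.card := fun B hB => card_le_card hB.2.2.1.sub
    obtain ⟨A0, hA0⟩ := hQ
    have hP : ∃ n, ∃ A, Q A ∧ A.2.card = n := ⟨_, A0, hA0, rfl⟩
    obtain ⟨n, ⟨A, hA, hn⟩, hm⟩ : ∃ n, (∃ A, Q A ∧ A.2.card = n) ∧
        ∀ m, (∃ A, Q A ∧ A.2.card = m) → m ≤ n := by
      have hbd : ∀ m, (∃ A, Q A ∧ A.2.card = m) → m ≤ C.card := by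
        rintro m ⟨A, hA, rfl⟩
        exact hb A hA
      refine ⟨Nat.findGreatest (fun m => ∃ A, Q A ∧ A.2.card = m) C.card, ?_, ?_⟩
      · exact Nat.findGreatest_spec (P := fun m => ∃ A, Q A ∧ A.2.card = m)
          (hb A0 hA0) ⟨A0, hA0, rfl⟩
      · intro m hm
        exact Nat.le_findGreatest (hbd m hm) hm
    exact ⟨A, hA, fun B hB => hn ▸ hm _ ⟨B, hB, rfl⟩⟩
  obtain ⟨X, S⟩ := A
  obtain ⟨lX, heX, hS, hcon, hSne, hLe⟩ := hA
  refine ⟨X, S, lX, heX, hS, ?_⟩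
  -- every leaf other than `X` meets `S`
  have key : ∀ L, Leaf s t vs es F C P L → L ≠ X → (L ∩ S).Nonempty := by
    intro L l hLX
    by_contra hno
    rw [not_nonempty_iff_eq_empty] at hno
    have hLS : ∀ v ∈ S, v ∉ L := fun v hv k => by
      have : v ∈ L ∩ S := mem_inter.2 ⟨k, hv⟩
      rw [hno] at this
      exact absurd this (notMem_empty v)
    have hd := hdis l lX hLX
    obtain ⟨v, hv⟩ := hSne
    obtain ⟨m1, m2⟩ := hfac l
    obtain ⟨S', s1, s2, s3⟩ := hseg l.1.1 m2 m1 (hS.sub hv) (hLS v hv)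
    -- `S` lies in `S'`
    have hsub : S ⊆ S' := by
      have h1 : S ∩ S' = S := by
        refine hcon _ inter_subset_left ⟨v, mem_inter.2 ⟨hv, s2⟩⟩ fun g hg hgF g1 g2 hc => ?_
        have h2 : cr s t S' g := by
          unfold cr at hc ⊢
          intro k
          apply hc
          simp only [mem_inter, g1, g2, true_and]
          exact k
        by_cases hgP : g ∈ P
        · exact s1.pcl g hgP h2
        · have h3 : g ∈ oth s es F C P := mem_filter.2 ⟨hg, hgF, hgP, hS.sub g1⟩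
          rcases s1.tox g h3 h2 with k | k
          · exact hLS _ g1 k
          · exact hLS _ g2 k
      rw [← h1]
      exact inter_subset_right
    -- a vertex of `X` in `S'`
    have hw : ∃ w ∈ X, w ∈ S' := by
      have h1 : ∃ g ∈ oth s es F C P, cr s t S g := by
        by_contra hc
        push Not at hc
        have h2 := hS.two
        rw [cn_eq_zero.2 hc] at h2
        exact absurd h2 (by norm_num)
      obtain ⟨g, g1, g2⟩ := h1
      obtain ⟨g3, g4, g5, g6⟩ := mem_filter.1 g1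
      have g7 : ¬ (cr s t S' g ∧ s g ∉ L ∧ t g ∉ L) := by
        rintro ⟨k, k1, k2⟩
        rcases s1.tox g g1 k with j | j
        · exact k1 j
        · exact k2 j
      have hXL : ∀ w ∈ X, w ∉ L := fun w hw k => disjoint_left.1 hd k hw
      have hXS : ∀ w ∈ X, w ∉ S := fun w hw k => disjoint_left.1 hS.dis k hw
      unfold cr at g2 g7
      rcases hS.tox g g1 g2 with k | k
      · refine ⟨_, k, ?_⟩
        have k1 := hXS _ k
        have k2 : t g ∈ S := by
          by_contra hh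
          exact g2 ⟨fun j => absurd j k1, fun j => absurd j hh⟩
        by_contra hh
        exact g7 ⟨fun j => hh (j.2 (hsub k2)), hXL _ k, hLS _ k2⟩
      · refine ⟨_, k, ?_⟩
        have k1 := hXS _ k
        have k2 : s g ∈ S := by
          by_contra hh
          exact g2 ⟨fun j => absurd j hh, fun j => absurd j k1⟩
        by_contra hh
        exact g7 ⟨fun j => hh (j.1 (hsub k2)), hLS _ k2, hXL _ k⟩
    obtain ⟨w, w1, w2⟩ := hw
    have w3 : w ∉ S := fun k => disjoint_left.1 hS.dis k w1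
    have hlt : S.card < S'.card := card_lt_card ⟨hsub, fun k => w3 (k w2)⟩
    have hLe' : ¬ (s e ∈ L ∧ t e ∈ L) := by
      rintro ⟨k1, k2⟩
      obtain ⟨x, hx⟩ := hLe L l k1 k2
      exact hLS x (mem_inter.1 hx).2 (mem_inter.1 hx).1
    have := hmax (L, S') ⟨l, hLe', s1, s3, ⟨v, s2⟩, fun L' l' k1 k2 => by
      obtain ⟨x, hx⟩ := hLe L' l' k1 k2
      exact ⟨x, mem_inter.2 ⟨(mem_inter.1 hx).1, hsub (mem_inter.1 hx).2⟩⟩⟩
    exact absurd this (by simpa using hlt)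
  intro Z hZ hZX
  obtain ⟨L, hL, l⟩ := br_leaf hZ
  have hne : L ≠ X := by
    rintro rfl
    obtain ⟨v, hv⟩ := br_ne l.1
    exact disjoint_left.1 hZX (hL hv) hv
  obtain ⟨x, hx⟩ := key L l hne
  exact ⟨x, mem_inter.2 ⟨hL (mem_inter.1 hx).1, (mem_inter.1 hx).2⟩⟩

end OddEight
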