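import Pool.Agent.Lib.OddEight.Hyp2

/-! Even circuits of the cycle, the graph left after deleting one half of such a circuit, sets
which are left by one edge of that graph, segments of the circuit, and the stuck situation:
definitions. -/

set_option autoImplicit false

namespace OddEight

open Finset Classical

variable {V E : Type*}

/-- names of the vertices and edges around the edge `e = ab`: `a` is joined to `p`, `q` by `e1`, `e2`
and `b` to `p'`, `q'` by `e3`, `e4` -/
structure Tree (V E : Type*) where
  a : V
  b : V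
  p : V
  q : V
  p' : V
  q' : V
  e : E
  e1 : E
  e2 : E
  e3 : E
  e4 : E

/-- the six vertices -/
noncomputable def Tree.T (R : Tree V E) : Finset V := {R.a, R.b, R.p, R.q, R.p', R.q'}

/-- the stuck situation -/
structure Stk (s t : E → V) (vs : Finset V) (es F : Finset E) (R : Tree V E) : Prop where
  h : Hyp s t vs es F
  hcut : ∀ X ⊆ vs, Odd X.card → 3 ≤ X.card → X.card + 3 ≤ vs.card → cn s t es X ≠ 3
  nd : [R.a, R.b, R.p, R.q, R.p', R.q'].Nodup
  sub : R.T ⊆ vs
  E0 : Ends s t R.e R.a R.b
  E1 : Ends s t R.e1 R.a R.p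
  E2 : Ends s t R.e2 R.a R.q
  E3 : Ends s t R.e3 R.b R.p'
  E4 : Ends s t R.e4 R.b R.q'
  m0 : R.e ∈ es
  m1 : R.e1 ∈ es
  m2 : R.e2 ∈ es
  m3 : R.e3 ∈ es
  m4 : R.e4 ∈ es
  full : ∀ v ∈ R.T, ∀ g ∈ es, cr s t {v} g → g ∈ F
  alla : ∀ g ∈ es, cr s t {R.a} g → g = R.e ∨ g = R.e1 ∨ g = R.e2
  allb : ∀ g ∈ es, cr s t {R.b} g → g = R.e ∨ g = R.e3 ∨ g = R.e4

/-- closed sets: only edges of `F` cross -/
def Cl (s t : E → V) (vs : Finset V) (es F : Finset E) (X : Finset V) : Prop :=
  X ⊆ vs ∧ ∀ g ∈ es, cr s t X g → g ∈ F

/-- `C` is the vertex set of a component of the graph `es` minus `F`: a minimal nonempty closed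
set -/
structure Comp (s t : E → V) (vs : Finset V) (es F : Finset E) (C : Finset V) : Prop where
  cl : Cl s t vs es F C
  ne : C.Nonempty
  min : ∀ X, Cl s t vs es F X → C ⊆ X ∨ Disjoint C X

/-- `C` is the vertex set of an even circuit and `P` is one half of its edges -/
structure Cir (s t : E → V) (vs : Finset V) (es F : Finset E) (C : Finset V) (P : Finset E) :
    Prop where
  comp : Comp s t vs es F C
  psub : P ⊆ es
  pf : Disjoint P F
  pends : ∀ g ∈ P, s g ∈ C ∧ t g ∈ C
  pone : ∀ v ∈ C, cn s t P {v} = 1

/-- the other half of the circuit -/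
noncomputable def oth (s : E → V) (es F : Finset E) (C : Finset V) (P : Finset E) : Finset E :=
  es.filter fun g => g ∉ F ∧ g ∉ P ∧ s g ∈ C

/-- the edges left after deleting the other half -/
noncomputable def hh (s : E → V) (es F : Finset E) (C : Finset V) (P : Finset E) : Finset E :=
  es \ oth s es F C P

/-- `X` is left by exactly one edge of `hh` -/
def Br (s t : E → V) (vs : Finset V) (es F : Finset E) (C : Finset V) (P : Finset E)
    (X : Finset V) : Prop :=
  X ⊆ vs ∧ cn s t (hh s es F C P) X = 1

/-- a minimal such set -/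
def Leaf (s t : E → V) (vs : Finset V) (es F : Finset E) (C : Finset V) (P : Finset E)
    (X : Finset V) : Prop :=
  Br s t vs es F C P X ∧ ∀ Z ⊆ X, Br s t vs es F C P Z → Z = X

/-- `S` is a segment of the part of the circuit `C` outside `X`: it is not crossed by `P`, it is
crossed by exactly two edges of the other half, and these lead to `X` -/
structure Seg (s t : E → V) (es F : Finset E) (C : Finset V) (P : Finset E)
    (X S : Finset V) : Prop where
  sub : S ⊆ C
  dis : Disjoint S X
  pcl : ∀ g ∈ P, ¬ cr s t S g
  two : cn s t (oth s es F C P) S = 2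
  tox : ∀ g ∈ oth s es F C P, cr s t S g → s g ∈ X ∨ t g ∈ X

/-- the edges of the graph in which the complement of `Y` is contracted to one vertex: the edges
touching `Y`, except those of the other half which do not touch the segment `S` -/
noncomputable def sde (s t : E → V) (es F : Finset E) (C : Finset V) (P : Finset E)
    (Y S : Finset V) : Finset E :=
  (touch s t es Y).filter fun g => g ∈ oth s es F C P → s g ∈ S ∨ t g ∈ S

end OddEight
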