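import Pool.Agent.Lib.OddEight.Base

/-! A perfect matching inside a 2-regular graph all of whose closed sets are even. -/

set_option autoImplicit false

namespace OddEight

open Finset Classical

variable {V E : Type*}

/-- in `ZMod 2`: the sum over the vertices of `W` of `c v` times the indicator of `e` crossing `{v}` -/
lemma sum_ci_mul {s t : E → V} {e : E} (he : s e ≠ t e) {W : Finset V} (h1 : s e ∈ W)
    (h2 : t e ∈ W) (c : V → ZMod 2) :
    ∑ v ∈ W, c v * (ci s t {v} e : ZMod 2) = c (s e) + c (t e) := by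
  have h3 : ∀ v, (ci s t {v} e : ZMod 2) = (if v = s e then 1 else 0) +
      (if v = t e then 1 else 0) := by
    intro v
    unfold ci cr
    simp only [mem_singleton]
    by_cases k1 : s e = v
    · have k2 : ¬ t e = v := fun h => he (k1.trans h.symm)
      simp [k1, k2, Ne.symm k2]
    · by_cases k2 : t e = v
      · simp [k1, k2, Ne.symm k1]
      · simp [k1, k2, Ne.symm k1, Ne.symm k2]
  simp only [h3, mul_add, mul_ite, mul_one, mul_zero]
  rw [Finset.sum_add_distrib, Finset.sum_ite_eq' W (s e), Finset.sum_ite_eq' W (t e), if_pos h1,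
    if_pos h2]

/-- **a perfect matching of `W` inside `D`** -/
theorem exists_match {s t : E → V} {W : Finset V} {D : Finset E}
    (hend : ∀ e ∈ D, s e ∈ W ∧ t e ∈ W) (hloop : ∀ e ∈ D, s e ≠ t e)
    (hdeg : ∀ v ∈ W, cn s t D {v} = 2)
    (heven : ∀ Z ⊆ W, (∀ e ∈ D, ¬ cr s t Z e) → Even Z.card) :
    ∃ N ⊆ D, ∀ v ∈ W, cn s t N {v} = 1 := by
  -- the incidence map
  let A : (D → ZMod 2) →ₗ[ZMod 2] (W → ZMod 2) :=
    { toFun := fun x v => ∑ e : D, (ci s t {(v : V)} (e : E) : ZMod 2) * x e
      map_add' := by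
        intro x y
        ext v
        simp only [Pi.add_apply, mul_add, Finset.sum_add_distrib]
      map_smul' := by
        intro r x
        ext v
        simp only [Pi.smul_apply, smul_eq_mul, RingHom.id_apply, Finset.mul_sum]
        exact Finset.sum_congr rfl fun e _ => by ring }
  have hA : ∀ x v, A x v = ∑ e : D, (ci s t {(v : V)} (e : E) : ZMod 2) * x e := fun _ _ => rfl
  by_cases hb : (fun _ => 1 : W → ZMod 2) ∈ LinearMap.range A
  · obtain ⟨x, hx⟩ := hb
    let N : Finset E := D.filter fun e => ∃ h : e ∈ D, x ⟨e, h⟩ = 1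
    refine ⟨N, filter_subset _ _, fun v hv => ?_⟩
    have h1 : A x ⟨v, hv⟩ = 1 := by rw [hx]
    rw [hA] at h1
    have h2 : ∑ e : D, (ci s t {v} (e : E) : ZMod 2) * x e = (cn s t N {v} : ZMod 2) := by
      unfold cn
      rw [Nat.cast_sum, Finset.sum_filter]
      rw [← Finset.sum_coe_sort D]
      refine Finset.sum_congr rfl fun e _ => ?_
      by_cases h3 : x e = 1
      · have h4 : ∃ h : (e : E) ∈ D, x ⟨(e : E), h⟩ = 1 := ⟨e.2, h3⟩
        rw [if_pos h4, h3, mul_one]
      · have h4 : ¬ ∃ h : (e : E) ∈ D, x ⟨(e : E), h⟩ = 1 := fun ⟨_, h5⟩ => h3 h5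
        have h6 : x e = 0 := by
          have : ∀ z : ZMod 2, z ≠ 1 → z = 0 := by decide
          exact this _ h3
        rw [if_neg h4, h6, mul_zero]
    rw [h2] at h1
    have h3 : cn s t N {v} ≤ 2 := by
      rw [← hdeg v hv]
      exact cn_mono (filter_subset _ _) _
    have h4 : cn s t N {v} = 0 ∨ cn s t N {v} = 1 ∨ cn s t N {v} = 2 := by omega
    rcases h4 with h4 | h4 | h4
    · rw [h4] at h1
      exact absurd h1 (by decide)
    · exact h4
    · rw [h4] at h1
      exact absurd h1 (by decide)
  · exfalso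
    obtain ⟨f, hf, hle⟩ := Submodule.exists_le_ker_of_notMem hb
    have hf0 : ∀ x, f (A x) = 0 := fun x => hle (LinearMap.mem_range_self A x)
    -- the coefficients of `f`
    let c : V → ZMod 2 := fun v => if h : v ∈ W then f (Pi.single ⟨v, h⟩ 1) else 0
    have hfc : ∀ y : W → ZMod 2, f y = ∑ v : W, c v * y v := by
      intro y
      have h1 : y = ∑ v : W, y v • (Pi.single v (1 : ZMod 2) : W → ZMod 2) := by
        ext w
        simp [Finset.sum_apply, Pi.single_apply]
      conv_lhs => rw [h1]
      rw [map_sum]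
      refine Finset.sum_congr rfl fun v _ => ?_
      rw [map_smul, smul_eq_mul, mul_comm]
      congr 1
      simp only [c]
      rw [dif_pos v.2]
    let Z : Finset V := W.filter fun v => c v = 1
    have hZ : ∀ v ∈ W, (v ∈ Z ↔ c v = 1) := fun v hv => by
      simp only [Z, mem_filter, hv, true_and]
    have h01 : ∀ z : ZMod 2, z ≠ 1 → z = 0 := by decide
    have hcr : ∀ e ∈ D, ¬ cr s t Z e := by
      intro e he
      obtain ⟨h1, h2⟩ := hend e he
      have h3 := hf0 (Pi.single ⟨e, he⟩ 1)
      rw [hfc] at h3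
      have h4 : ∀ v : W, A (Pi.single ⟨e, he⟩ 1) v = (ci s t {(v : V)} e : ZMod 2) := by
        intro v
        rw [hA]
        rw [Finset.sum_eq_single (⟨e, he⟩ : D)]
        · rw [Pi.single_eq_same, mul_one]
        · intro b _ hb'
          rw [Pi.single_eq_of_ne hb', mul_zero]
        · intro h5
          exact absurd (mem_univ _) h5
      simp only [h4] at h3
      rw [Finset.sum_coe_sort W (fun v => c v * (ci s t {v} e : ZMod 2))] at h3
      rw [sum_ci_mul (hloop e he) h1 h2] at h3
      unfold cr
      rw [not_not, hZ _ h1, hZ _ h2]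
      constructor
      · intro h5
        by_contra h6
        rw [h5, h01 _ h6] at h3
        exact absurd h3 (by decide)
      · intro h5
        by_contra h6
        rw [h5, h01 _ h6] at h3
        exact absurd h3 (by decide)
    have hev := heven Z (filter_subset _ _) hcr
    apply hf
    rw [hfc]
    rw [Finset.sum_coe_sort W (fun v => c v * (1 : ZMod 2))]
    have h5 : ∑ v ∈ W, c v * (1 : ZMod 2) = (Z.card : ZMod 2) := by
      rw [card_filter, Nat.cast_sum]
      refine Finset.sum_congr rfl fun v hv => ?_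
      rw [mul_one]
      by_cases h6 : c v = 1
      · rw [if_pos h6, h6, Nat.cast_one]
      · rw [if_neg h6, h01 _ h6, Nat.cast_zero]
    rw [h5]
    obtain ⟨k, hk⟩ := hev
    rw [hk, Nat.cast_add]
    have : ∀ z : ZMod 2, z + z = 0 := by decide
    exact this _

end OddEight
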