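import Pool.Agent.Lib.OddEight.Cir
import Pool.Agent.Lib.OddEight.Match

/-! An even component of the cycle has a half: a perfect matching by edges outside `F`. -/

set_option autoImplicit false

namespace OddEight

open Finset Classical

variable {V E : Type*} {s t : E → V} {vs : Finset V} {es F P : Finset E} {C : Finset V}

private lemma cl_iff (hC : Cl s t vs es F C) {g : E} (hg : g ∈ es) (hF : g ∉ F) :
    s g ∈ C ↔ t g ∈ C := by
  by_contra h
  exact hF (hC.2 g hg h)

theorem exists_P (h : Hyp s t vs es F) (hC : Comp s t vs es F C) (hev : Even C.card) :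
    ∃ P, Cir s t vs es F C P := by
  have hcl := hC.cl
  obtain ⟨P, hP, hP1⟩ := exists_match (s := s) (t := t) (W := C)
    (D := es.filter fun g => g ∉ F ∧ s g ∈ C)
    (fun g hg => by
      obtain ⟨h1, h2, h3⟩ := mem_filter.1 hg
      exact ⟨h3, (cl_iff hcl h1 h2).1 h3⟩)
    (fun g hg => h.noloop g (mem_filter.1 hg).1)
    (fun v hv => by
      have hvs := hcl.1 hv
      have h1 : cn s t es {v} = cn s t (es \ F) {v} + cn s t F {v} := by
        rw [← cn_union sdiff_disjoint, sdiff_union_of_subset h.sub]
      rw [h.cubic v hvs] at h1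
      have h2 := h.join v hvs
      have h3 : cn s t (es \ F) {v} ≠ 0 := by
        intro h4
        rw [cn_eq_zero] at h4
        have h5 : Cl s t vs es F {v} := by
          refine ⟨singleton_subset_iff.2 hvs, fun g hg hc => ?_⟩
          by_contra h6
          exact h4 g (mem_sdiff.2 ⟨hg, h6⟩) hc
        rcases hC.min _ h5 with h6 | h6
        · have h7 : C = {v} := Subset.antisymm h6 (singleton_subset_iff.2 hv)
          rw [h7, card_singleton] at hev
          exact absurd hev (by decide)
        · exact (disjoint_left.1 h6) hv (mem_singleton_self v)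
      have h7 : cn s t (es.filter fun g => g ∉ F ∧ s g ∈ C) {v} = cn s t (es \ F) {v} := by
        rw [cn_eq_card, cn_eq_card]
        congr 1
        ext g
        simp only [mem_filter, mem_sdiff]
        constructor
        · rintro ⟨⟨h8, h9, -⟩, h10⟩
          exact ⟨⟨h8, h9⟩, h10⟩
        · rintro ⟨⟨h8, h9⟩, h10⟩
          refine ⟨⟨h8, h9, ?_⟩, h10⟩
          by_contra h11
          have h12 : t g ∉ C := fun h13 => h11 ((cl_iff hcl h8 h9).2 h13)
          apply h10
          rw [mem_singleton, mem_singleton]
          constructor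
          · intro h13
            rw [h13] at h11
            exact absurd hv h11
          · intro h13
            rw [h13] at h12
            exact absurd hv h12
      rw [h7]
      obtain ⟨k, hk⟩ := h2
      omega)
    (fun Z hZ hc => by
      have h5 : Cl s t vs es F Z := by
        refine ⟨hZ.trans hcl.1, fun g hg hgc => ?_⟩
        by_contra h6
        refine hc g (mem_filter.2 ⟨hg, h6, ?_⟩) hgc
        by_contra h7
        have h8 : t g ∉ C := fun h9 => h7 ((cl_iff hcl hg h6).2 h9)
        exact hgc ⟨fun h9 => absurd (hZ h9) h7, fun h9 => absurd (hZ h9) h8⟩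
      rcases hC.min _ h5 with h6 | h6
      · rw [Subset.antisymm hZ h6]
        exact hev
      · have h7 : Z = ∅ := by
          rw [← disjoint_self_iff_empty]
          exact h6.mono_left hZ
        rw [h7, card_empty]
        exact ⟨0, rfl⟩)
  refine ⟨P, ⟨hC, hP.trans (filter_subset _ _), ?_, fun g hg => ?_, hP1⟩⟩
  · rw [disjoint_left]
    intro g hg
    exact (mem_filter.1 (hP hg)).2.1
  · obtain ⟨h1, h2, h3⟩ := mem_filter.1 (hP hg)
    exact ⟨h3, (cl_iff hcl h1 h2).1 h3⟩

end OddEight
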