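import Pool.Agent.Lib.OddEight.Cir

/-! Elimination of an even circuit when no set is left by exactly one edge. -/

set_option autoImplicit false

namespace OddEight

open Finset Classical

variable {V E : Type*} {s t : E → V} {vs : Finset V} {es F P : Finset E} {C : Finset V}

private lemma ee_both (c : Cir s t vs es F C P) {g : E} (hg : g ∈ es) (hF : g ∉ F) :
    s g ∈ C ↔ t g ∈ C := by
  by_contra h
  exact hF (c.comp.cl.2 g hg h)

private lemma ee_touch {g : E} {u : V} : cr s t {u} g → s g = u ∨ t g = u := by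
  intro h
  unfold cr at h
  rw [mem_singleton, mem_singleton] at h
  by_contra h1
  rw [not_or] at h1
  exact h ⟨fun h2 => absurd h2 h1.1, fun h2 => absurd h2 h1.2⟩

private lemma ee_mem {g : E} : g ∈ hh s es F C P ↔ g ∈ es ∧ (g ∈ F ∨ g ∈ P ∨ s g ∉ C) := by
  unfold hh oth
  rw [mem_sdiff, mem_filter]
  tauto

private lemma ee_two (h : Hyp s t vs es F) (c : Cir s t vs es F C P) {u : V} (hu : u ∈ C) :
    cn s t (hh s es F C P) {u} = 2 := by
  have hus := c.comp.cl.1 hu
  have h2 := c.pone u hu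
  have h1 : cn s t F {u} = 1 := by
    have h3 := h.join u hus
    have h4 : cn s t (F ∪ P) {u} ≤ 3 := by
      rw [← h.cubic u hus]
      exact cn_mono (union_subset h.sub c.psub) _
    rw [cn_union c.pf.symm] at h4
    obtain ⟨k, hk⟩ := h3
    omega
  have h3 : cn s t (hh s es F C P) {u} = cn s t (F ∪ P) {u} := by
    rw [cn_eq_card, cn_eq_card]
    congr 1
    ext g
    rw [mem_filter, mem_filter, ee_mem, mem_union]
    constructor
    · rintro ⟨⟨h4, h5⟩, h6⟩
      refine ⟨?_, h6⟩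
      rcases h5 with h5 | h5 | h5
      · exact Or.inl h5
      · exact Or.inr h5
      · by_cases h7 : g ∈ F
        · exact Or.inl h7
        · exfalso
          rcases ee_touch h6 with h8 | h8
          · exact h5 (h8 ▸ hu)
          · exact h5 ((ee_both c h4 h7).2 (h8 ▸ hu))
    · rintro ⟨h4, h5⟩
      refine ⟨?_, h5⟩
      rcases h4 with h4 | h4
      · exact ⟨h.sub h4, Or.inl h4⟩
      · exact ⟨c.psub h4, Or.inr (Or.inl h4)⟩
  rw [h3, cn_union c.pf.symm, h1, h2]

private lemma ee_three (h : Hyp s t vs es F) (c : Cir s t vs es F C P) {u : V} (hus : u ∈ vs)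
    (hu : u ∉ C) : cn s t (hh s es F C P) {u} = 3 := by
  rw [← h.cubic u hus, cn_eq_card, cn_eq_card]
  congr 1
  ext g
  rw [mem_filter, mem_filter, ee_mem]
  constructor
  · rintro ⟨⟨h4, h5⟩, h6⟩
    exact ⟨h4, h6⟩
  · rintro ⟨h4, h5⟩
    refine ⟨⟨h4, ?_⟩, h5⟩
    by_contra h6
    rw [not_or, not_or, not_not] at h6
    rcases ee_touch h5 with h7 | h7
    · exact hu (h7 ▸ h6.2.2)
    · exact hu (h7 ▸ (ee_both c h4 h6.1).1 h6.2.2)

private lemma ee_par (h : Hyp s t vs es F) (c : Cir s t vs es F C P) {Z : Finset V}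
    (hZ : Z ⊆ vs) (ho : Odd (Z \ C).card) : Odd (cn s t (hh s es F C P) Z) := by
  have h1 := sum_cn (s := s) (t := t) (A := hh s es F C P)
    (fun e he => h.noloop e (ee_mem.1 he).1) Z
  have h2 : ∑ u ∈ Z, cn s t (hh s es F C P) {u} = 3 * (Z \ C).card + 2 * (Z ∩ C).card := by
    rw [← Finset.sum_inter_add_sum_sdiff Z C, add_comm]
    congr 1
    · rw [Finset.sum_congr rfl (g := fun _ => 3), Finset.sum_const, smul_eq_mul, Nat.mul_comm]
      intro u hu
      rw [mem_sdiff] at hu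
      exact ee_three h c (hZ hu.1) hu.2
    · rw [Finset.sum_congr rfl (g := fun _ => 2), Finset.sum_const, smul_eq_mul, Nat.mul_comm]
      intro u hu
      exact ee_two h c (mem_inter.1 hu).2
  rw [h2] at h1
  by_contra h4
  rw [Nat.not_odd_iff_even] at h4
  obtain ⟨a, ha⟩ := ho
  obtain ⟨b, hb⟩ := h4
  omega

theorem hyp2_zero (h : Hyp s t vs es F) (c : Cir s t vs es F C P) {T : Finset V}
    (hT8 : T.card ≤ 8) (hmeet : ∀ X, Cl s t vs es F X → Odd X.card → (X ∩ T).Nonempty)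
    (hno : ¬ ∃ X, Br s t vs es F C P X) :
    Hyp2 s t vs (hh s es F C P) F P C T := by
  refine ⟨fun g hg => h.ends g (ee_mem.1 hg).1, fun g hg => h.noloop g (ee_mem.1 hg).1,
    c.comp.cl.1, fun v hv hvC => ee_three h c hv hvC, fun v hv => ee_two h c hv, c.pone,
    fun g hg => ee_mem.2 ⟨c.psub hg, Or.inr (Or.inl hg)⟩,
    fun g hg => ee_mem.2 ⟨h.sub hg, Or.inl hg⟩, c.pf, c.pends, h.join, ?_, hT8, ?_⟩
  · intro X hX ho
    have h1 := ee_par h c hX ho
    have h2 : cn s t (hh s es F C P) X ≠ 1 := fun h2 => hno ⟨X, hX, h2⟩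
    obtain ⟨k, hk⟩ := h1
    omega
  · intro X hX ho hc
    have h1 : Cl s t vs es F (X \ C) := by
      refine ⟨sdiff_subset.trans hX, fun g hg hcr => ?_⟩
      by_contra hF
      have hb := ee_both c hg hF
      by_cases h2 : s g ∈ C
      · exact hcr (by simp [mem_sdiff, h2, hb.1 h2])
      · have h3 : t g ∉ C := fun h3 => h2 (hb.2 h3)
        have h4 : cr s t X g := by
          unfold cr at hcr ⊢
          simpa [mem_sdiff, h2, h3] using hcr
        rcases hc g (ee_mem.2 ⟨hg, Or.inr (Or.inr h2)⟩) h4 with h5 | h5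
        · exact hF h5
        · exact h2 (c.pends g h5).1
    obtain ⟨u, hu⟩ := hmeet _ h1 ho
    rw [mem_inter, mem_sdiff] at hu
    exact ⟨u, mem_inter.2 ⟨hu.1.1, hu.2⟩⟩

theorem concl_zero (h : Hyp s t vs es F) (c : Cir s t vs es F C P) {e : E}
    (hC : Concl2 s t vs (hh s es F C P) F C e) : Concl s t vs es F e := by
  obtain ⟨M, hM, he, hM1, hgood⟩ := hC
  have hsub : hh s es F C P ⊆ es := fun g hg => (ee_mem.1 hg).1
  refine ⟨M, hM.trans hsub, he, hM1, ?_⟩
  have key : ∀ Z ⊆ vs, Odd Z.card → Disjoint C Z → ∃ g ∈ es, cr s t Z g ∧ ¬ (g ∈ M ∧ g ∈ F) := by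
    intro Z hZ ho hd
    have h1 : Z \ C = Z := by
      rw [Finset.sdiff_eq_self_iff_disjoint]
      exact hd.symm
    obtain ⟨g, hg, hc, hn⟩ := hgood Z hZ (by rw [h1]; exact ho)
    exact ⟨g, hsub hg, hc, hn⟩
  intro Z hZ ho
  by_contra hcon
  have hcon' : ∀ g ∈ es, cr s t Z g → g ∈ M ∧ g ∈ F := by
    intro g hg hc
    by_contra h
    exact hcon ⟨g, hg, hc, h⟩
  rcases c.comp.min Z ⟨hZ, fun g hg hc => (hcon' g hg hc).2⟩ with h1 | h1
  · obtain ⟨g, hg, hc, hn⟩ := key (vs \ Z) sdiff_subset (by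
      rw [card_sdiff_of_subset hZ]
      have h2 := h.even_card
      have h3 := card_le_card hZ
      obtain ⟨a, ha⟩ := h2
      obtain ⟨b, hb⟩ := ho
      exact ⟨a - b - 1, by omega⟩) (by
      rw [disjoint_left]
      intro u hu hu'
      exact (mem_sdiff.1 hu').2 (h1 hu))
    rw [cr_compl (h.ends g hg).1 (h.ends g hg).2] at hc
    exact hcon ⟨g, hg, hc, hn⟩
  · exact hcon (key Z hZ ho h1)

end OddEight
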