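import Pool.Agent.Lib.OddEight.Cir

/-! Gluing of perfect matchings along a set which is left by one edge of the graph without one
half of an even circuit. -/

set_option autoImplicit false

namespace OddEight

open Finset Classical

variable {V E : Type*} {s t : E → V} {vs : Finset V} {es F P : Finset E} {C : Finset V}

namespace GlueE

lemma mem_oth {g : E} : g ∈ oth s es F C P ↔ g ∈ es ∧ g ∉ F ∧ g ∉ P ∧ s g ∈ C := by
  unfold oth; rw [mem_filter]

lemma mem_hh {g : E} : g ∈ hh s es F C P ↔ g ∈ es ∧ g ∉ oth s es F C P := by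
  unfold hh; rw [mem_sdiff]

lemma mem_sde {Y S : Finset V} {g : E} : g ∈ sde s t es F C P Y S ↔
    g ∈ es ∧ (s g ∈ Y ∨ t g ∈ Y) ∧ (g ∈ oth s es F C P → s g ∈ S ∨ t g ∈ S) := by
  unfold sde; rw [mem_filter, mem_touch, and_assoc]

lemma one_of {A : Finset E} {X : Finset V} {g : E} (hg : g ∈ A) (hc : cr s t X g)
    (hall : ∀ g' ∈ A, cr s t X g' → g' = g) : cn s t A X = 1 := by
  rw [cn_eq_card, card_eq_one]
  refine ⟨g, ?_⟩
  ext g'
  rw [mem_filter, mem_singleton]
  constructor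
  · exact fun h => hall g' h.1 h.2
  · rintro rfl
    exact ⟨hg, hc⟩

/-- one side of the argument for the odd cuts -/
lemma side_bad (h : Hyp s t vs es F) {Y : Finset V} (hY : Y ⊆ vs) {f : E}
    (hff : ∀ g ∈ hh s es F C P, cr s t Y g → g = f) (hfF : f ∈ F) {S vp : Finset V}
    (hvp : vp ⊆ C) {M MY : Finset E} (hM : M ⊆ es) (hpm : ∀ v ∈ vs, cn s t M {v} = 1)
    {z : V} (hz : z ∉ Y) (hMY : ∀ g ∈ M, (s g ∈ Y ∨ t g ∈ Y) → g ∈ MY)
    (hgood : ∀ Z ⊆ insert z Y, Odd (Z \ vp).card → ∃ g ∈ sde s t es F C P Y S,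
      cr (con s Y z) (con t Y z) Z g ∧ ¬ (g ∈ MY ∧ g ∈ touch s t F Y))
    {K : Finset V} (hKC : Disjoint C K)
    (hall : ∀ g ∈ es, cr s t K g → g ∈ M ∧ g ∈ F) (ho : Odd (K ∩ Y).card) : False := by
  have hZY : K ∩ Y ⊆ Y := inter_subset_right
  have hZvs : K ∩ Y ⊆ vs := hZY.trans hY
  have hZvp : (K ∩ Y) \ vp = K ∩ Y := by
    rw [Finset.sdiff_eq_self_iff_disjoint, disjoint_left]
    intro v hv hv'
    exact (disjoint_left.1 hKC) (hvp hv') (mem_inter.1 hv).1
  -- an edge crossing `K ∩ Y` but not `K` is `f`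
  have key : ∀ g ∈ es, cr s t (K ∩ Y) g → ¬ cr s t K g → g = f ∧ (s f ∈ Y ∨ t f ∈ Y) := by
    intro g hg hc hn
    unfold cr at hc hn
    rw [not_not] at hn
    simp only [mem_inter] at hc
    have hsK : s g ∈ K := by
      by_contra h1
      have h2 : t g ∉ K := fun h3 => h1 (hn.2 h3)
      exact hc ⟨fun h3 => absurd h3.1 h1, fun h3 => absurd h3.1 h2⟩
    have htK : t g ∈ K := hn.1 hsK
    have hcY : cr s t Y g := by
      unfold cr
      intro h3
      exact hc ⟨fun h4 => ⟨htK, h3.1 h4.2⟩, fun h4 => ⟨hsK, h3.2 h4.2⟩⟩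
    have hgf : g = f := by
      refine hff g (mem_hh.2 ⟨hg, fun h3 => ?_⟩) hcY
      exact (disjoint_left.1 hKC) (mem_oth.1 h3).2.2.2 hsK
    refine ⟨hgf, ?_⟩
    rw [← hgf]
    by_contra h3
    rw [not_or] at h3
    exact hcY ⟨fun h4 => absurd h4 h3.1, fun h4 => absurd h4 h3.2⟩
  obtain ⟨g, hg, hc, hn⟩ := hgood (K ∩ Y) (hZY.trans (subset_insert _ _)) (by rw [hZvp]; exact ho)
  rw [cr_con hz hZY] at hc
  rw [mem_sde] at hg
  by_cases hcK : cr s t K g
  · obtain ⟨h1, h2⟩ := hall g hg.1 hcK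
    exact hn ⟨hMY g h1 hg.2.1, mem_touch.2 ⟨h2, hg.2.1⟩⟩
  · obtain ⟨hgf, hfY⟩ := key g hg.1 hc hcK
    subst hgf
    by_cases hfM : g ∈ M
    · exact hn ⟨hMY g hfM hfY, mem_touch.2 ⟨hfF, hfY⟩⟩
    · have o1 := h.odd_es hZvs ho
      have o2 : Odd (cn s t M (K ∩ Y)) := by
        rw [odd_cn fun e he => h.noloop e (hM he)]
        · exact ho
        · intro v hv
          rw [hpm v (hZvs hv)]
          decide
      have e1 := cn_filter_add s t es (fun g => g ∈ M) (K ∩ Y)
      have i1 : es.filter (fun g => g ∈ M) = M := by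
        ext a
        rw [mem_filter]
        exact ⟨fun h' => h'.2, fun h' => ⟨hM h', h'⟩⟩
      have i2 : cn s t (es.filter fun g => ¬ g ∈ M) (K ∩ Y) = 1 := by
        refine one_of (mem_filter.2 ⟨hg.1, hfM⟩) hc ?_
        intro g' hg' hc'
        rw [mem_filter] at hg'
        refine (key g' hg'.1 hc' fun h3 => hg'.2 (hall g' hg'.1 h3).1).1
      rw [i1, i2] at e1
      rw [e1] at o1
      have := Odd.add_odd o2 (show Odd 1 by decide)
      rw [← Nat.not_odd_iff_even] at this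
      exact this o1

end GlueE

open GlueE

theorem glueE (h : Hyp s t vs es F) (c : Cir s t vs es F C P) {X S : Finset V} {f : E}
    (hX : X ⊆ vs) (_hPX : ∀ g ∈ P, ¬ cr s t X g) (hf : f ∈ F) (_hfX : cr s t X f)
    (hff : ∀ g ∈ hh s es F C P, cr s t X g → g = f) (_hS : Seg s t es F C P X S)
    {z z2 : V} (hz : z ∈ X) (_hz2 : z2 ∈ vs) (hz2X : z2 ∉ X) {e : E}
    (c1 : Concl2 (con s (vs \ X) z) (con t (vs \ X) z) (insert z (vs \ X))
      (sde s t es F C P (vs \ X) S) (touch s t F (vs \ X)) ((C \ X) \ S) e)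
    (c2 : ∀ g ∈ es, cr s t X g → (g = f ∨ g ∈ oth s es F C P) →
      ∃ S2, Seg s t es F C P (vs \ X) S2 ∧
        Concl2 (con s X z2) (con t X z2) (insert z2 X) (sde s t es F C P X S2)
          (touch s t F X) ((C ∩ X) \ S2) g) :
    Concl s t vs es F e := by
  set Y := vs \ X with hY'
  have hY : Y ⊆ vs := sdiff_subset
  have hzY : z ∉ Y := fun h' => (mem_sdiff.1 h').2 hz
  obtain ⟨MY, hMY, heMY, hpY, hgY⟩ := c1
  have hMYes : MY ⊆ es := fun g hg => (mem_sde.1 (hMY hg)).1
  have hcY : cn s t MY X = 1 := by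
    have h1 : cn s t MY Y = 1 := by
      rw [← cn_con_z hzY]
      exact hpY z (mem_insert_self _ _)
    rw [← h1, hY', cn_compl fun e he => h.ends e (hMYes he)]
  obtain ⟨g, hgMY, hgX, huniq⟩ := cn_eq_one_unique hcY
  have hges := hMYes hgMY
  have hgt : g = f ∨ g ∈ oth s es F C P := by
    by_cases h1 : g ∈ oth s es F C P
    · exact Or.inr h1
    · exact Or.inl (hff g (mem_hh.2 ⟨hges, h1⟩) hgX)
  obtain ⟨S2, -, MX, hMX, hgMX, hpX, hgXX⟩ := c2 g hges hgX hgt
  have hMXes : MX ⊆ es := fun g hg => (mem_sde.1 (hMX hg)).1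
  have hcX : cn s t MX X = 1 := by
    rw [← cn_con_z hz2X]
    exact hpX z2 (mem_insert_self _ _)
  have huniq2 : ∀ g' ∈ MX, cr s t X g' → g' = g := by
    obtain ⟨g2, -, -, hu⟩ := cn_eq_one_unique hcX
    intro g' h1 h2
    rw [hu g' h1 h2, hu g hgMX hgX]
  have hcross : ∀ a ∈ es, (cr s t X a ↔ (s a ∈ X ∨ t a ∈ X) ∧ (s a ∈ Y ∨ t a ∈ Y)) := by
    intro a ha
    have h1 := (h.ends a ha).1
    have h2 := (h.ends a ha).2
    unfold cr
    rw [hY']
    simp only [mem_sdiff, h1, h2, true_and]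
    tauto
  have hMes : MY ∪ MX ⊆ es := union_subset hMYes hMXes
  have hmm1 : ∀ a ∈ MY ∪ MX, (s a ∈ Y ∨ t a ∈ Y) → a ∈ MY := by
    intro a ha h1
    rcases mem_union.1 ha with h2 | h2
    · exact h2
    · have h4 : cr s t X a := (hcross a (hMXes h2)).2 ⟨(mem_sde.1 (hMX h2)).2.1, h1⟩
      rw [huniq2 a h2 h4]
      exact hgMY
  have hmm2 : ∀ a ∈ MY ∪ MX, (s a ∈ X ∨ t a ∈ X) → a ∈ MX := by
    intro a ha h1
    rcases mem_union.1 ha with h2 | h2
    · have h4 : cr s t X a := (hcross a (hMYes h2)).2 ⟨h1, (mem_sde.1 (hMY h2)).2.1⟩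
      rw [huniq a h2 h4]
      exact hgMX
    · exact h2
  have hpm : ∀ v ∈ vs, cn s t (MY ∪ MX) {v} = 1 := by
    intro v hv
    by_cases hvX : v ∈ X
    · have e1 : cn s t (MY ∪ MX) {v} = cn s t MX {v} := by
        unfold cn
        symm
        refine Finset.sum_subset subset_union_right fun a ha hna => ?_
        rw [ci_eq_zero]
        intro hc
        apply hna
        refine hmm2 a ha ?_
        unfold cr at hc
        simp only [mem_singleton] at hc
        by_cases h1 : s a = v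
        · exact Or.inl (h1 ▸ hvX)
        · by_cases h2 : t a = v
          · exact Or.inr (h2 ▸ hvX)
          · exact absurd (by tauto) hc
      rw [e1, ← cn_con hz2X (singleton_subset_iff.2 hvX)]
      exact hpX v (mem_insert_of_mem hvX)
    · have hvY : v ∈ Y := mem_sdiff.2 ⟨hv, hvX⟩
      have e1 : cn s t (MY ∪ MX) {v} = cn s t MY {v} := by
        unfold cn
        symm
        refine Finset.sum_subset subset_union_left fun a ha hna => ?_
        rw [ci_eq_zero]
        intro hc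
        apply hna
        refine hmm1 a ha ?_
        unfold cr at hc
        simp only [mem_singleton] at hc
        by_cases h1 : s a = v
        · exact Or.inl (h1 ▸ hvY)
        · by_cases h2 : t a = v
          · exact Or.inr (h2 ▸ hvY)
          · exact absurd (by tauto) hc
      rw [e1, ← cn_con hzY (singleton_subset_iff.2 hvY)]
      exact hpY v (mem_insert_of_mem hvY)
  refine ⟨MY ∪ MX, hMes, mem_union_left _ heMY, hpm, ?_⟩
  -- the odd cuts
  have hffY : ∀ g ∈ hh s es F C P, cr s t Y g → g = f := by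
    intro g' hg' hc'
    have he' := h.ends g' (mem_hh.1 hg').1
    rw [hY', cr_compl he'.1 he'.2] at hc'
    exact hff g' hg' hc'
  have main : ∀ K ⊆ vs, Odd K.card → Disjoint C K →
      (∀ g ∈ es, cr s t K g → g ∈ MY ∪ MX ∧ g ∈ F) → False := by
    intro K hK hKo hKC hall
    have hsum : (K ∩ X).card + (K ∩ Y).card = K.card := by
      have h1 : K ∩ Y = K \ X := by
        ext v
        rw [mem_inter, hY', mem_sdiff, mem_sdiff]
        exact ⟨fun h' => ⟨h'.1, h'.2.2⟩, fun h' => ⟨h'.1, hK h'.1, h'.2⟩⟩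
      rw [h1, add_comm]
      exact card_sdiff_add_card_inter K X
    rcases Nat.even_or_odd (K ∩ Y).card with hev | hod
    · have ho : Odd (K ∩ X).card := by
        obtain ⟨a, ha⟩ := hev
        obtain ⟨b, hb⟩ := hKo
        exact ⟨b - a, by omega⟩
      exact side_bad h hX hff hf (vp := (C ∩ X) \ S2) (sdiff_subset.trans inter_subset_left)
        hMes hpm hz2X hmm2 hgXX hKC hall ho
    · exact side_bad h hY hffY hf (vp := (C \ X) \ S) (sdiff_subset.trans sdiff_subset)
        hMes hpm hzY hmm1 hgY hKC hall hod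
  intro Z hZ hZo
  by_contra hcon
  have hall : ∀ g ∈ es, cr s t Z g → g ∈ MY ∪ MX ∧ g ∈ F := by
    intro g' hg' hc'
    by_contra h'
    exact hcon ⟨g', hg', hc', h'⟩
  rcases c.comp.min Z ⟨hZ, fun g' hg' hc' => (hall g' hg' hc').2⟩ with h1 | h1
  · refine main (vs \ Z) sdiff_subset ?_ ?_ ?_
    · rw [card_sdiff_of_subset hZ]
      have hle := card_le_card hZ
      obtain ⟨a, ha⟩ := hZo
      obtain ⟨b, hb⟩ := h.even_card
      exact ⟨b - a - 1, by omega⟩
    · rw [disjoint_left]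
      intro v hv hv'
      exact (mem_sdiff.1 hv').2 (h1 hv)
    · intro g' hg' hc'
      have he' := h.ends g' hg'
      rw [cr_compl he'.1 he'.2] at hc'
      exact hall g' hg' hc'
  · exact main Z hZ hZo h1 hall

end OddEight
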