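import Pool.Agent.Lib.OddEight.Base

/-! The reduction: the edge `f = xy` outside `F` is deleted together with its ends, and the
neighbours are joined by two new edges. -/

set_option autoImplicit false

namespace OddEight

open Finset Classical

variable {V E : Type*}

/-- the ends of `g` are `p` and `q` -/
def Ends (s t : E → V) (g : E) (p q : V) : Prop := (s g = p ∧ t g = q) ∨ (s g = q ∧ t g = p)

lemma Ends.cr {s t : E → V} {g : E} {p q : V} (h : Ends s t g p q) (X : Finset V) :
    cr s t X g ↔ ¬ (p ∈ X ↔ q ∈ X) := by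
  unfold OddEight.cr
  rcases h with ⟨h1, h2⟩ | ⟨h1, h2⟩ <;> rw [h1, h2]
  tauto

lemma cn_insert {s t : E → V} {A : Finset E} {e : E} (h : e ∉ A) (X : Finset V) :
    cn s t (insert e A) X = ci s t X e + cn s t A X := Finset.sum_insert h

lemma cn_eq_one_unique' {s t : E → V} {A : Finset E} {X : Finset V} (h : cn s t A X = 1) :
    ∃ g ∈ A, cr s t X g ∧ ∀ g' ∈ A, cr s t X g' → g' = g := by
  rw [cn_eq_card, card_eq_one] at h
  obtain ⟨g, hg⟩ := h
  have h1 : g ∈ A.filter (OddEight.cr s t X) := by rw [hg]; exact mem_singleton_self _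
  rw [mem_filter] at h1
  refine ⟨g, h1.1, h1.2, fun g' h2 h3 => ?_⟩
  have h4 : g' ∈ A.filter (OddEight.cr s t X) := mem_filter.2 ⟨h2, h3⟩
  rw [hg] at h4
  exact mem_singleton.1 h4

/-- local configuration -/
structure Conf (s t : E → V) (vs : Finset V) (es F : Finset E) (x y a b c d : V)
    (f ea eb ec ed : E) : Prop where
  xy : x ≠ y
  hx : x ∈ vs
  hy : y ∈ vs
  ha : a ∈ vs
  hb : b ∈ vs
  hc : c ∈ vs
  hd : d ∈ vs
  ax : a ≠ x
  ay : a ≠ y
  bx : b ≠ x
  bY : b ≠ y
  cx : c ≠ x
  cy : c ≠ y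
  dx : d ≠ x
  dy : d ≠ y
  ac : a ≠ c
  bd : b ≠ d
  mf : f ∈ es
  ma : ea ∈ es
  mb : eb ∈ es
  mc : ec ∈ es
  md : ed ∈ es
  fa : f ≠ ea
  fb : f ≠ eb
  fc : f ≠ ec
  fd : f ≠ ed
  ab : ea ≠ eb
  aC : ea ≠ ec
  ad : ea ≠ ed
  bc : eb ≠ ec
  bD : eb ≠ ed
  cd : ec ≠ ed
  Ef : Ends s t f x y
  Ea : Ends s t ea x a
  Eb : Ends s t eb x b
  Ec : Ends s t ec y c
  Ed : Ends s t ed y d
  cutx : ∀ g ∈ es, cr s t {x} g → g = f ∨ g = ea ∨ g = eb
  cuty : ∀ g ∈ es, cr s t {y} g → g = f ∨ g = ec ∨ g = ed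
  Fa : ea ∈ F
  Fc : ec ∈ F
  Ff : f ∉ F
  Fb : eb ∉ F
  Fd : ed ∉ F

/-- new first end -/
noncomputable def ns (s : E → V) (a b : V) (ea eb : E) : E → V :=
  Function.update (Function.update s ea a) eb b

variable {s t : E → V} {vs : Finset V} {es F : Finset E} {x y a b c d : V} {f ea eb ec ed : E}

/-- untouched edges -/
noncomputable def es0 (es : Finset E) (f ea eb ec ed : E) : Finset E :=
  es \ {f, ea, eb, ec, ed}

lemma mem_es0 {g : E} : g ∈ es0 es f ea eb ec ed ↔
    g ∈ es ∧ g ≠ f ∧ g ≠ ea ∧ g ≠ eb ∧ g ≠ ec ∧ g ≠ ed := by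
  unfold es0
  simp only [mem_sdiff, mem_insert, mem_singleton, not_or, ne_eq]

/-- new edge set -/
noncomputable def nes (es : Finset E) (f ec ed : E) : Finset E := es \ {f, ec, ed}

lemma mem_nes {g : E} : g ∈ nes es f ec ed ↔ g ∈ es ∧ g ≠ f ∧ g ≠ ec ∧ g ≠ ed := by
  unfold nes
  simp only [mem_sdiff, mem_insert, mem_singleton, not_or, ne_eq]

/-- new vertex set -/
noncomputable def nvs (vs : Finset V) (x y : V) : Finset V := vs \ {x, y}

lemma mem_nvs {v : V} : v ∈ nvs vs x y ↔ v ∈ vs ∧ v ≠ x ∧ v ≠ y := by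
  unfold nvs
  simp only [mem_sdiff, mem_insert, mem_singleton, not_or, ne_eq]

namespace Conf

variable (K : Conf s t vs es F x y a b c d f ea eb ec ed)

include K

lemma ns_a (r : E → V) (p q : V) : ns r p q ea eb ea = p := by
  unfold ns
  rw [Function.update_of_ne K.ab, Function.update_self]

omit K in
lemma ns_b (r : E → V) (p q : V) : ns r p q ea eb eb = q := by
  unfold ns
  rw [Function.update_self]

omit K in
lemma ns_other (r : E → V) (p q : V) {g : E} (h1 : g ≠ ea) (h2 : g ≠ eb) :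
    ns r p q ea eb g = r g := by
  unfold ns
  rw [Function.update_of_ne h2, Function.update_of_ne h1]

lemma Ea' : Ends (ns s a b ea eb) (ns t c d ea eb) ea a c :=
  Or.inl ⟨K.ns_a s a b, K.ns_a t c d⟩

omit K in
lemma Eb' : Ends (ns s a b ea eb) (ns t c d ea eb) eb b d :=
  Or.inl ⟨ns_b s a b, ns_b t c d⟩

omit K in
lemma cr_other {g : E} (h1 : g ≠ ea) (h2 : g ≠ eb) (X : Finset V) :
    cr (ns s a b ea eb) (ns t c d ea eb) X g ↔ cr s t X g := by
  unfold cr
  rw [ns_other s a b h1 h2, ns_other t c d h1 h2]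

omit K in
lemma cn_other {A : Finset E} (h1 : ea ∉ A) (h2 : eb ∉ A) (X : Finset V) :
    cn (ns s a b ea eb) (ns t c d ea eb) A X = cn s t A X := by
  unfold cn ci
  refine Finset.sum_congr rfl fun g hg => ?_
  have e1 : g ≠ ea := fun h => h1 (h ▸ hg)
  have e2 : g ≠ eb := fun h => h2 (h ▸ hg)
  rw [if_congr (cr_other e1 e2 X) rfl rfl]

omit K in
lemma ea_es0 : ea ∉ es0 es f ea eb ec ed := fun h => (mem_es0.1 h).2.2.1 rfl
omit K in
lemma eb_es0 : eb ∉ es0 es f ea eb ec ed := fun h => (mem_es0.1 h).2.2.2.1 rfl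
omit K in
lemma ec_es0 : ec ∉ es0 es f ea eb ec ed := fun h => (mem_es0.1 h).2.2.2.2.1 rfl
omit K in
lemma ed_es0 : ed ∉ es0 es f ea eb ec ed := fun h => (mem_es0.1 h).2.2.2.2.2 rfl
omit K in
lemma f_es0 : f ∉ es0 es f ea eb ec ed := fun h => (mem_es0.1 h).2.1 rfl

/-- untouched edges avoid `x` and `y` -/
lemma avoid (h : Hyp s t vs es F) {g : E} (hg : g ∈ es0 es f ea eb ec ed) :
    s g ≠ x ∧ s g ≠ y ∧ t g ≠ x ∧ t g ≠ y := by
  rw [mem_es0] at hg
  obtain ⟨h0, h1, h2, h3, h4, h5⟩ := hg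
  have nx : ¬ cr s t {x} g := fun hc => by
    rcases K.cutx g h0 hc with h | h | h
    · exact h1 h
    · exact h2 h
    · exact h3 h
  have ny : ¬ cr s t {y} g := fun hc => by
    rcases K.cuty g h0 hc with h | h | h
    · exact h1 h
    · exact h4 h
    · exact h5 h
  have hn := h.noloop g h0
  unfold cr at nx ny
  simp only [mem_singleton, not_not] at nx ny
  refine ⟨fun e => hn ?_, fun e => hn ?_, fun e => hn ?_, fun e => hn ?_⟩
  · rw [e, nx.1 e]
  · rw [e, ny.1 e]
  · rw [e, nx.2 e]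
  · rw [e, ny.2 e]

lemma es_eq : es = insert f (insert ea (insert eb (insert ec (insert ed
    (es0 es f ea eb ec ed))))) := by
  ext g
  simp only [mem_insert, mem_es0]
  constructor
  · intro h
    tauto
  · rintro (h | h | h | h | h | h)
    · exact h ▸ K.mf
    · exact h ▸ K.ma
    · exact h ▸ K.mb
    · exact h ▸ K.mc
    · exact h ▸ K.md
    · exact h.1

lemma nes_eq : nes es f ec ed = insert ea (insert eb (es0 es f ea eb ec ed)) := by
  ext g
  simp only [mem_insert, mem_es0, mem_nes]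
  constructor
  · intro h
    tauto
  · rintro (h | h | h)
    · rw [h]; exact ⟨K.ma, K.fa.symm, K.aC, K.ad⟩
    · rw [h]; exact ⟨K.mb, K.fb.symm, K.bc, K.bD⟩
    · exact ⟨h.1, h.2.1, h.2.2.2.2.1, h.2.2.2.2.2⟩

lemma cn_es (X : Finset V) : cn s t es X = ci s t X f + (ci s t X ea + (ci s t X eb +
    (ci s t X ec + (ci s t X ed + cn s t (es0 es f ea eb ec ed) X)))) := by
  conv_lhs => rw [K.es_eq]
  rw [cn_insert, cn_insert, cn_insert, cn_insert, cn_insert]
  · exact ed_es0
  · simp only [mem_insert, not_or]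
    exact ⟨K.cd, ec_es0⟩
  · simp only [mem_insert, not_or]
    exact ⟨K.bc, K.bD, eb_es0⟩
  · simp only [mem_insert, not_or]
    exact ⟨K.ab, K.aC, K.ad, ea_es0⟩
  · simp only [mem_insert, not_or]
    exact ⟨K.fa, K.fb, K.fc, K.fd, f_es0⟩

lemma cn_nes (X : Finset V) : cn (ns s a b ea eb) (ns t c d ea eb) (nes es f ec ed) X =
    ci (ns s a b ea eb) (ns t c d ea eb) X ea + (ci (ns s a b ea eb) (ns t c d ea eb) X eb +
      cn s t (es0 es f ea eb ec ed) X) := by
  rw [K.nes_eq, cn_insert, cn_insert, cn_other ea_es0 eb_es0]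
  · exact eb_es0
  · simp only [mem_insert, not_or]
    exact ⟨K.ab, ea_es0⟩

lemma cn_es0_add (h : Hyp s t vs es F) (X : Finset V) :
    cn s t (es0 es f ea eb ec ed) (X ∪ {x, y}) = cn s t (es0 es f ea eb ec ed) X := by
  unfold cn ci
  refine Finset.sum_congr rfl fun g hg => ?_
  obtain ⟨h1, h2, h3, h4⟩ := K.avoid h hg
  have : cr s t (X ∪ {x, y}) g ↔ cr s t X g := by
    unfold cr
    simp only [mem_union, mem_insert, mem_singleton, h1, h2, h3, h4, or_false]
  rw [if_congr this rfl rfl]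

/-- the key count at single vertices -/
lemma cn_single {v : V} (hvx : v ≠ x) (hvy : v ≠ y) :
    cn (ns s a b ea eb) (ns t c d ea eb) (nes es f ec ed) {v} = cn s t es {v} := by
  rw [K.cn_nes, K.cn_es]
  unfold ci
  rw [if_congr (K.Ea'.cr {v}) rfl rfl, if_congr (Eb'.cr {v}) rfl rfl,
    if_congr (K.Ef.cr {v}) rfl rfl, if_congr (K.Ea.cr {v}) rfl rfl,
    if_congr (K.Eb.cr {v}) rfl rfl, if_congr (K.Ec.cr {v}) rfl rfl,
    if_congr (K.Ed.cr {v}) rfl rfl]
  simp only [mem_singleton, hvx.symm, hvy.symm, false_iff, not_not, not_true, if_false,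
    zero_add, iff_self]
  have h1 : ¬ (a = v ∧ c = v) := fun h => K.ac (h.1.trans h.2.symm)
  have h2 : ¬ (b = v ∧ d = v) := fun h => K.bd (h.1.trans h.2.symm)
  by_cases e1 : a = v <;> by_cases e2 : c = v <;> by_cases e3 : b = v <;>
    by_cases e4 : d = v <;> simp [e1, e2, e3, e4] at h1 h2 ⊢

/-- the key count for sets avoiding `x` and `y` -/
lemma count_out {X : Finset V} (hx : x ∉ X) (hy : y ∉ X) :
    cn s t es X = cn (ns s a b ea eb) (ns t c d ea eb) (nes es f ec ed) X +
      2 * (if a ∈ X ∧ c ∈ X then 1 else 0) + 2 * (if b ∈ X ∧ d ∈ X then 1 else 0) := by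
  rw [K.cn_nes, K.cn_es]
  unfold ci
  rw [if_congr (K.Ea'.cr X) rfl rfl, if_congr (Eb'.cr X) rfl rfl,
    if_congr (K.Ef.cr X) rfl rfl, if_congr (K.Ea.cr X) rfl rfl,
    if_congr (K.Eb.cr X) rfl rfl, if_congr (K.Ec.cr X) rfl rfl,
    if_congr (K.Ed.cr X) rfl rfl]
  by_cases e1 : a ∈ X <;> by_cases e2 : c ∈ X <;> by_cases e3 : b ∈ X <;>
    by_cases e4 : d ∈ X <;> simp [e1, e2, e3, e4, hx, hy] <;> ring

/-- the key count for sets containing `x` and `y` -/
lemma count_in (h : Hyp s t vs es F) (X : Finset V) :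
    cn s t es (X ∪ {x, y}) = cn (ns s a b ea eb) (ns t c d ea eb) (nes es f ec ed) X +
      2 * (if a ∉ X ∧ c ∉ X then 1 else 0) + 2 * (if b ∉ X ∧ d ∉ X then 1 else 0) := by
  rw [K.cn_nes, K.cn_es, K.cn_es0_add h]
  unfold ci
  rw [if_congr (K.Ea'.cr X) rfl rfl, if_congr (Eb'.cr X) rfl rfl,
    if_congr (K.Ef.cr _) rfl rfl, if_congr (K.Ea.cr _) rfl rfl,
    if_congr (K.Eb.cr _) rfl rfl, if_congr (K.Ec.cr _) rfl rfl,
    if_congr (K.Ed.cr _) rfl rfl]
  have ma : ∀ v, v ≠ x → v ≠ y → (v ∈ X ∪ {x, y} ↔ v ∈ X) := by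
    intro v h1 h2
    simp only [mem_union, mem_insert, mem_singleton, h1, h2, or_false]
  have mx : x ∈ X ∪ {x, y} := by simp
  have my : y ∈ X ∪ {x, y} := by simp
  simp only [ma a K.ax K.ay, ma b K.bx K.bY, ma c K.cx K.cy, ma d K.dx K.dy, mx, my]
  by_cases e1 : a ∈ X <;> by_cases e2 : c ∈ X <;> by_cases e3 : b ∈ X <;>
    by_cases e4 : d ∈ X <;> simp [e1, e2, e3, e4] <;> ring

lemma card_add {X : Finset V} (hx : x ∉ X) (hy : y ∉ X) : (X ∪ {x, y}).card = X.card + 2 := by
  rw [card_union_of_disjoint]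
  · rw [card_pair K.xy]
  · rw [disjoint_left]
    intro v h1 h2
    rw [mem_insert, mem_singleton] at h2
    rcases h2 with h2 | h2
    · exact hx (h2 ▸ h1)
    · exact hy (h2 ▸ h1)

omit K in
lemma nvs_sub : nvs vs x y ⊆ vs := fun _ hv => (mem_nvs.1 hv).1

lemma add_sub {X : Finset V} (hX : X ⊆ nvs vs x y) : X ∪ {x, y} ⊆ vs := by
  intro v hv
  rw [mem_union, mem_insert, mem_singleton] at hv
  rcases hv with hv | hv | hv
  · exact nvs_sub (hX hv)
  · exact hv ▸ K.hx
  · exact hv ▸ K.hy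

omit K in
lemma x_out {X : Finset V} (hX : X ⊆ nvs vs x y) : x ∉ X := fun h => (mem_nvs.1 (hX h)).2.1 rfl
omit K in
lemma y_out {X : Finset V} (hX : X ⊆ nvs vs x y) : y ∉ X := fun h => (mem_nvs.1 (hX h)).2.2 rfl

lemma card_nvs : (nvs vs x y).card + 2 = vs.card := by
  have h1 := K.card_add (x_out (Finset.Subset.refl (nvs vs x y))) (y_out (Finset.Subset.refl _))
  rw [← h1]
  congr 1
  ext v
  rw [mem_union, mem_nvs, mem_insert, mem_singleton]
  constructor
  · rintro (h | h | h)
    · exact h.1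
    · exact h ▸ K.hx
    · exact h ▸ K.hy
  · intro h
    tauto

lemma mem_anvs : a ∈ nvs vs x y := mem_nvs.2 ⟨K.ha, K.ax, K.ay⟩
lemma mem_bnvs : b ∈ nvs vs x y := mem_nvs.2 ⟨K.hb, K.bx, K.bY⟩
lemma mem_cnvs : c ∈ nvs vs x y := mem_nvs.2 ⟨K.hc, K.cx, K.cy⟩
lemma mem_dnvs : d ∈ nvs vs x y := mem_nvs.2 ⟨K.hd, K.dx, K.dy⟩

lemma cases_nes {g : E} (hg : g ∈ nes es f ec ed) :
    g = ea ∨ g = eb ∨ g ∈ es0 es f ea eb ec ed := by
  rw [K.nes_eq, mem_insert, mem_insert] at hg
  exact hg

/-- the reduced graph satisfies all hypotheses -/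
lemma hyp (h : Hyp s t vs es F)
    (hcut : ∀ X ⊆ vs, Odd X.card → 3 ≤ X.card → X.card + 3 ≤ vs.card → cn s t es X ≠ 3) :
    Hyp (ns s a b ea eb) (ns t c d ea eb) (nvs vs x y) (nes es f ec ed) (F.erase ec) where
  ends := by
    intro g hg
    rcases K.cases_nes hg with rfl | rfl | hg
    · rw [K.ns_a, K.ns_a]
      exact ⟨K.mem_anvs, K.mem_cnvs⟩
    · rw [ns_b, ns_b]
      exact ⟨K.mem_bnvs, K.mem_dnvs⟩
    · have hg' := mem_es0.1 hg
      rw [ns_other s a b hg'.2.2.1 hg'.2.2.2.1, ns_other t c d hg'.2.2.1 hg'.2.2.2.1]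
      obtain ⟨h1, h2, h3, h4⟩ := K.avoid h hg
      exact ⟨mem_nvs.2 ⟨(h.ends g hg'.1).1, h1, h2⟩, mem_nvs.2 ⟨(h.ends g hg'.1).2, h3, h4⟩⟩
  noloop := by
    intro g hg
    rcases K.cases_nes hg with rfl | rfl | hg
    · rw [K.ns_a, K.ns_a]
      exact K.ac
    · rw [ns_b, ns_b]
      exact K.bd
    · have hg' := mem_es0.1 hg
      rw [ns_other s a b hg'.2.2.1 hg'.2.2.2.1, ns_other t c d hg'.2.2.1 hg'.2.2.2.1]
      exact h.noloop g hg'.1
  cubic := by
    intro v hv
    rw [mem_nvs] at hv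
    rw [K.cn_single hv.2.1 hv.2.2]
    exact h.cubic v hv.1
  oddcut := by
    intro X hX hXo
    have hx := x_out hX
    have hy := y_out hX
    have c1 := K.count_out hx hy
    have c2 := K.count_in h X
    have o1 := h.oddcut X (hX.trans nvs_sub) hXo
    have hcard := K.card_add hx hy
    have hXo2 : Odd (X ∪ {x, y}).card := by
      rw [hcard]
      obtain ⟨k, hk⟩ := hXo
      exact ⟨k + 1, by omega⟩
    have o2 := h.oddcut _ (K.add_sub hX) hXo2
    have p1 := h.odd_es (hX.trans nvs_sub) hXo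
    have hle := card_le_card (K.add_sub hX)
    have hev := h.even_card
    have hn := hcut X (hX.trans nvs_sub) hXo
    have hcd := card_nvs K
    by_contra hlt
    -- two elements of `X`, or none
    have two : ∀ p q : V, p ≠ q → p ∈ X → q ∈ X → 2 ≤ X.card := by
      intro p q hpq hp hq
      have : ({p, q} : Finset V) ⊆ X := by
        intro v hv
        rw [mem_insert, mem_singleton] at hv
        rcases hv with rfl | rfl
        · exact hp
        · exact hq
      have := card_le_card this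
      rwa [card_pair hpq] at this
    have two' : ∀ p q : V, p ≠ q → p ∈ nvs vs x y → q ∈ nvs vs x y → p ∉ X → q ∉ X →
        X.card + 2 ≤ (nvs vs x y).card := by
      intro p q hpq hp hq hp' hq'
      have h1 : X ∪ {p, q} ⊆ nvs vs x y := by
        intro v hv
        rw [mem_union, mem_insert, mem_singleton] at hv
        rcases hv with hv | rfl | rfl
        · exact hX hv
        · exact hp
        · exact hq
      have h2 := card_le_card h1
      rw [card_union_of_disjoint, card_pair hpq] at h2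
      · exact h2
      · rw [disjoint_left]
        intro v h3 h4
        rw [mem_insert, mem_singleton] at h4
        rcases h4 with rfl | rfl
        · exact hp' h3
        · exact hq' h3
    have A1 := two a c K.ac
    have A2 := two' a c K.ac K.mem_anvs K.mem_cnvs
    have B1 := two b d K.bd
    have B2 := two' b d K.bd K.mem_bnvs K.mem_dnvs
    obtain ⟨k, hk⟩ := hXo
    obtain ⟨l, hl⟩ := p1
    obtain ⟨m, hm⟩ := hev
    by_cases e1 : a ∈ X <;> by_cases e2 : c ∈ X <;> by_cases e3 : b ∈ X <;>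
      by_cases e4 : d ∈ X <;>
      simp only [e1, e2, e3, e4, and_true, and_false, not_true, not_false_iff,
        if_true, if_false, forall_const, and_self] at c1 c2 A1 A2 B1 B2 <;> omega
  sub := by
    intro g hg
    rw [mem_erase] at hg
    rw [mem_nes]
    exact ⟨h.sub hg.2, fun h' => K.Ff (h' ▸ hg.2), hg.1, fun h' => K.Fd (h' ▸ hg.2)⟩
  join := by
    intro v hv
    rw [mem_nvs] at hv
    have h1 := h.join v hv.1
    -- `F = F0 ∪ {ea, ec}`
    set F0 := (F.erase ec).erase ea with hF0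
    have e1 : F = insert ec (insert ea F0) := by
      rw [hF0, insert_erase (mem_erase.2 ⟨K.aC, K.Fa⟩), insert_erase K.Fc]
    have e2 : F.erase ec = insert ea F0 := by
      rw [hF0, insert_erase (mem_erase.2 ⟨K.aC, K.Fa⟩)]
    have n1 : ea ∉ F0 := fun h' => (mem_erase.1 h').1 rfl
    have n2 : ec ∉ insert ea F0 := by
      rw [← e2]
      exact fun h' => (mem_erase.1 h').1 rfl
    have n3 : eb ∉ F0 := fun h' => K.Fb (mem_of_mem_erase (mem_of_mem_erase h'))
    have c1 : cn s t F {v} = ci s t {v} ec + (ci s t {v} ea + cn s t F0 {v}) := by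
      conv_lhs => rw [e1]
      rw [cn_insert n2, cn_insert n1]
    have c2 : cn (ns s a b ea eb) (ns t c d ea eb) (F.erase ec) {v} =
        ci (ns s a b ea eb) (ns t c d ea eb) {v} ea + cn s t F0 {v} := by
      rw [e2, cn_insert n1, cn_other n1 n3]
    have hac : ¬ (a = v ∧ c = v) := fun h => K.ac (h.1.trans h.2.symm)
    have c3 : ci (ns s a b ea eb) (ns t c d ea eb) {v} ea = ci s t {v} ec + ci s t {v} ea := by
      unfold ci
      rw [if_congr (K.Ea'.cr {v}) rfl rfl, if_congr (K.Ea.cr {v}) rfl rfl,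
        if_congr (K.Ec.cr {v}) rfl rfl]
      simp only [mem_singleton, hv.2.1.symm, hv.2.2.symm, false_iff, not_not]
      by_cases e1 : a = v <;> by_cases e2 : c = v <;> simp [e1, e2] at hac ⊢
    rw [c2, c3, add_assoc, ← c1]
    exact h1
  nine := by
    rintro ⟨Z, hZ, hdis⟩
    apply h.nine
    have hbd : ∀ i, (b ∈ Z i ↔ d ∈ Z i) := by
      intro i
      by_contra hc
      have hm : eb ∈ nes es f ec ed := mem_nes.2 ⟨K.mb, K.fb.symm, K.bc, K.bD⟩
      have := (hZ i).2.2 eb hm ((Eb'.cr (Z i)).2 hc)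
      exact K.Fb (mem_of_mem_erase this)
    set L : Finset V → Finset V := fun S => if b ∈ S then S ∪ {x, y} else S with hL
    have hLv : ∀ S : Finset V, ∀ v, v ≠ x → v ≠ y → (v ∈ L S ↔ v ∈ S) := by
      intro S v h1 h2
      simp only [hL]
      split_ifs
      · simp only [mem_union, mem_insert, mem_singleton, h1, h2, or_false]
      · exact Iff.rfl
    have hLx : ∀ S : Finset V, S ⊆ nvs vs x y → (x ∈ L S ↔ b ∈ S) := by
      intro S hS
      simp only [hL]
      split_ifs with h1
      · simp [h1]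
      · exact ⟨fun h' => absurd h' (x_out hS), fun h' => absurd h' h1⟩
    have hLy : ∀ S : Finset V, S ⊆ nvs vs x y → (y ∈ L S ↔ b ∈ S) := by
      intro S hS
      simp only [hL]
      split_ifs with h1
      · simp [h1]
      · exact ⟨fun h' => absurd h' (y_out hS), fun h' => absurd h' h1⟩
    refine ⟨fun i => L (Z i), fun i => ⟨?_, ?_, ?_⟩, ?_⟩
    · change L (Z i) ⊆ vs
      simp only [hL]
      split_ifs
      · exact K.add_sub (hZ i).1
      · exact (hZ i).1.trans nvs_sub
    · change Odd (L (Z i)).card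
      simp only [hL]
      split_ifs
      · rw [K.card_add (x_out (hZ i).1) (y_out (hZ i).1)]
        obtain ⟨k, hk⟩ := (hZ i).2.1
        exact ⟨k + 1, by omega⟩
      · exact (hZ i).2.1
    · intro g hg hc
      change cr s t (L (Z i)) g at hc
      by_cases g1 : g = f
      · rw [g1, K.Ef.cr, hLx _ (hZ i).1, hLy _ (hZ i).1] at hc
        exact absurd Iff.rfl hc
      by_cases g2 : g = ea
      · rw [g2]; exact K.Fa
      by_cases g3 : g = ec
      · rw [g3]; exact K.Fc
      by_cases g4 : g = eb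
      · rw [g4, K.Eb.cr, hLx _ (hZ i).1, hLv _ b K.bx K.bY] at hc
        exact absurd Iff.rfl hc
      by_cases g5 : g = ed
      · rw [g5, K.Ed.cr, hLy _ (hZ i).1, hLv _ d K.dx K.dy] at hc
        exact absurd (hbd i) hc
      have hg0 : g ∈ es0 es f ea eb ec ed := mem_es0.2 ⟨hg, g1, g2, g4, g3, g5⟩
      obtain ⟨h1, h2, h3, h4⟩ := K.avoid h hg0
      have hc' : cr (ns s a b ea eb) (ns t c d ea eb) (Z i) g := by
        rw [cr_other g2 g4]
        unfold cr at hc ⊢
        rw [hLv _ _ h1 h2, hLv _ _ h3 h4] at hc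
        exact hc
      exact mem_of_mem_erase ((hZ i).2.2 g (mem_nes.2 ⟨hg, g1, g3, g5⟩) hc')
    · intro i j hij
      have hdij := hdis i j hij
      rw [disjoint_left] at hdij ⊢
      intro v h1 h2
      change v ∈ L (Z i) at h1
      change v ∈ L (Z j) at h2
      by_cases hvx : v = x
      · rw [hvx, hLx _ (hZ i).1] at h1
        rw [hvx, hLx _ (hZ j).1] at h2
        exact hdij h1 h2
      by_cases hvy : v = y
      · rw [hvy, hLy _ (hZ i).1] at h1
        rw [hvy, hLy _ (hZ j).1] at h2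
        exact hdij h1 h2
      rw [hLv _ v hvx hvy] at h1 h2
      exact hdij h1 h2

/-- lifting the perfect matching -/
lemma lift (h : Hyp s t vs es F) {e : E} (he : e ∈ es0 es f ea eb ec ed) {w : V}
    (hw : w ∈ nvs vs x y) (hew : cr s t {w} e) (hwab : (w = a ∨ w = c) ∨ (w = b ∨ w = d))
    (hC : Concl (ns s a b ea eb) (ns t c d ea eb) (nvs vs x y) (nes es f ec ed) (F.erase ec) e) :
    Concl s t vs es F e := by
  obtain ⟨M', hM', heM', hpm, hgood⟩ := hC
  set M0 := M' ∩ es0 es f ea eb ec ed with hM0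
  have heM0 : e ∈ M0 := mem_inter.2 ⟨heM', he⟩
  have hM0s : M0 ⊆ es0 es f ea eb ec ed := inter_subset_right
  have a0 : ea ∉ M0 := fun h' => ea_es0 (hM0s h')
  have b0 : eb ∉ M0 := fun h' => eb_es0 (hM0s h')
  have c0 : ec ∉ M0 := fun h' => ec_es0 (hM0s h')
  have d0 : ed ∉ M0 := fun h' => ed_es0 (hM0s h')
  have f0 : f ∉ M0 := fun h' => f_es0 (hM0s h')
  have he' := mem_es0.1 he
  -- not both new edges
  have hnot : ¬ (ea ∈ M' ∧ eb ∈ M') := by
    rintro ⟨h1, h2⟩
    have h3 := hpm w hw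
    obtain ⟨g, -, -, hu⟩ := cn_eq_one_unique' h3
    have hew' : cr (ns s a b ea eb) (ns t c d ea eb) {w} e :=
      (cr_other he'.2.2.1 he'.2.2.2.1 {w}).2 hew
    have u1 := hu e heM' hew'
    rcases hwab with h4 | h4
    · have hcr : cr (ns s a b ea eb) (ns t c d ea eb) {w} ea := by
        rw [K.Ea'.cr]
        simp only [mem_singleton]
        rcases h4 with h4 | h4
        · rw [h4]
          intro h5
          exact K.ac (h5.1 rfl).symm
        · rw [h4]
          intro h5
          exact K.ac (h5.2 rfl)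
      exact he'.2.2.1 (u1.trans (hu ea h1 hcr).symm)
    · have hcr : cr (ns s a b ea eb) (ns t c d ea eb) {w} eb := by
        rw [(Eb' (s := s) (t := t)).cr]
        simp only [mem_singleton]
        rcases h4 with h4 | h4
        · rw [h4]
          intro h5
          exact K.bd (h5.1 rfl).symm
        · rw [h4]
          intro h5
          exact K.bd (h5.2 rfl)
      exact he'.2.2.2.1 (u1.trans (hu eb h2 hcr).symm)
  -- decomposition of `M'`
  have hdec : ∀ v, cn (ns s a b ea eb) (ns t c d ea eb) M' {v} =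
      (if ea ∈ M' then ci (ns s a b ea eb) (ns t c d ea eb) {v} ea else 0) +
      ((if eb ∈ M' then ci (ns s a b ea eb) (ns t c d ea eb) {v} eb else 0) +
        cn s t M0 {v}) := by
    intro v
    have e1 : cn s t M0 {v} = cn (ns s a b ea eb) (ns t c d ea eb) M0 {v} :=
      (cn_other a0 b0 {v}).symm
    rw [e1]
    by_cases h1 : ea ∈ M'
    · have h2 : eb ∉ M' := fun h2 => hnot ⟨h1, h2⟩
      have e2 : M' = insert ea M0 := by
        ext g
        rw [mem_insert, hM0, mem_inter]
        constructor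
        · intro hg
          rcases K.cases_nes (hM' hg) with h3 | h3 | h3
          · exact Or.inl h3
          · exact absurd (h3 ▸ hg) h2
          · exact Or.inr ⟨hg, h3⟩
        · rintro (h3 | h3)
          · exact h3 ▸ h1
          · exact h3.1
      rw [if_pos h1, if_neg h2, zero_add]
      conv_lhs => rw [e2]
      rw [cn_insert a0]
    · by_cases h2 : eb ∈ M'
      · have e2 : M' = insert eb M0 := by
          ext g
          rw [mem_insert, hM0, mem_inter]
          constructor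
          · intro hg
            rcases K.cases_nes (hM' hg) with h3 | h3 | h3
            · exact absurd (h3 ▸ hg) h1
            · exact Or.inl h3
            · exact Or.inr ⟨hg, h3⟩
          · rintro (h3 | h3)
            · exact h3 ▸ h2
            · exact h3.1
        rw [if_neg h1, if_pos h2, zero_add]
        conv_lhs => rw [e2]
        rw [cn_insert b0]
      · have e2 : M' = M0 := by
          ext g
          rw [hM0, mem_inter]
          constructor
          · intro hg
            rcases K.cases_nes (hM' hg) with h3 | h3 | h3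
            · exact absurd (h3 ▸ hg) h1
            · exact absurd (h3 ▸ hg) h2
            · exact ⟨hg, h3⟩
          · exact fun h3 => h3.1
        rw [if_neg h1, if_neg h2, zero_add, zero_add]
        conv_lhs => rw [e2]
  have hM0x : cn s t M0 {x} = 0 := by
    rw [cn_eq_zero]
    intro g hg hc
    obtain ⟨h1, -, h3, -⟩ := K.avoid h (hM0s hg)
    unfold cr at hc
    simp only [mem_singleton] at hc
    exact hc ⟨fun h' => absurd h' h1, fun h' => absurd h' h3⟩
  have hM0y : cn s t M0 {y} = 0 := by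
    rw [cn_eq_zero]
    intro g hg hc
    obtain ⟨-, h1, -, h3⟩ := K.avoid h (hM0s hg)
    unfold cr at hc
    simp only [mem_singleton] at hc
    exact hc ⟨fun h' => absurd h' h1, fun h' => absurd h' h3⟩
  have hM0es : M0 ⊆ es := fun g hg => (mem_es0.1 (hM0s hg)).1
  -- the general argument for the odd cuts
  have hfin : ∀ M : Finset E, (∀ g ∈ es0 es f ea eb ec ed, g ∈ M → g ∈ M') →
      (ea ∈ M → ea ∈ M') → (ec ∈ M → ea ∈ M') →
      ∀ Z ⊆ vs, Odd Z.card → ∃ g ∈ es, cr s t Z g ∧ ¬ (g ∈ M ∧ g ∈ F) := by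
    intro M hm0 hma hmc Z hZ hZo
    by_contra hcon
    have hall : ∀ g ∈ es, cr s t Z g → g ∈ M ∧ g ∈ F := by
      intro g hg hc
      by_contra h'
      exact hcon ⟨g, hg, hc, h'⟩
    have sxy : x ∈ Z ↔ y ∈ Z := by
      by_contra h'
      exact K.Ff (hall f K.mf ((K.Ef.cr Z).2 h')).2
    have sxb : x ∈ Z ↔ b ∈ Z := by
      by_contra h'
      exact K.Fb (hall eb K.mb ((K.Eb.cr Z).2 h')).2
    have syd : y ∈ Z ↔ d ∈ Z := by
      by_contra h'
      exact K.Fd (hall ed K.md ((K.Ed.cr Z).2 h')).2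
    have hZ' : Z \ {x, y} ⊆ nvs vs x y := by
      intro v hv
      rw [mem_sdiff, mem_insert, mem_singleton, not_or] at hv
      exact mem_nvs.2 ⟨hZ hv.1, hv.2.1, hv.2.2⟩
    have hmZ : ∀ v, v ≠ x → v ≠ y → (v ∈ Z \ {x, y} ↔ v ∈ Z) := by
      intro v h1 h2
      rw [mem_sdiff, mem_insert, mem_singleton]
      simp only [h1, h2, or_self, not_false_iff, and_true]
    have hZo' : Odd (Z \ {x, y}).card := by
      by_cases hx : x ∈ Z
      · have hsub : ({x, y} : Finset V) ⊆ Z := by
          intro v hv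
          rw [mem_insert, mem_singleton] at hv
          rcases hv with hv | hv
          · exact hv ▸ hx
          · exact hv ▸ sxy.1 hx
        have h2 := card_le_card hsub
        rw [card_sdiff_of_subset hsub]
        rw [card_pair K.xy] at h2 ⊢
        obtain ⟨k, hk⟩ := hZo
        exact ⟨k - 1, by omega⟩
      · have : Z \ {x, y} = Z := by
          ext v
          rw [mem_sdiff, mem_insert, mem_singleton]
          constructor
          · exact fun h' => h'.1
          · intro hv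
            refine ⟨hv, ?_⟩
            rintro (h' | h')
            · exact hx (h' ▸ hv)
            · exact hx (sxy.2 (h' ▸ hv))
        rw [this]
        exact hZo
    obtain ⟨g, hg, hc, hn⟩ := hgood _ hZ' hZo'
    apply hn
    rcases K.cases_nes hg with h3 | h3 | h3
    · rw [h3] at hc ⊢
      rw [K.Ea'.cr, hmZ a K.ax K.ay, hmZ c K.cx K.cy] at hc
      refine ⟨?_, mem_erase.2 ⟨K.aC, K.Fa⟩⟩
      by_cases h4 : cr s t Z ea
      · exact hma (hall ea K.ma h4).1
      · have h5 : cr s t Z ec := by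
          rw [K.Ea.cr, not_not] at h4
          rw [K.Ec.cr]
          intro h6
          exact hc (h4.symm.trans (sxy.trans h6))
        exact hmc (hall ec K.mc h5).1
    · rw [h3, Eb'.cr, hmZ b K.bx K.bY, hmZ d K.dx K.dy] at hc
      exact absurd (sxb.symm.trans (sxy.trans syd)) hc
    · have h3' := mem_es0.1 h3
      obtain ⟨k1, k2, k3, k4⟩ := K.avoid h h3
      rw [cr_other h3'.2.2.1 h3'.2.2.2.1] at hc
      have hc' : cr s t Z g := by
        unfold cr at hc ⊢
        rw [hmZ _ k1 k2, hmZ _ k3 k4] at hc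
        exact hc
      obtain ⟨m1, m2⟩ := hall g h3'.1 hc'
      exact ⟨hm0 g h3 m1, mem_erase.2 ⟨h3'.2.2.2.2.1, m2⟩⟩
  have hvals : ∀ v, v ≠ x → v ≠ y →
      (ci (ns s a b ea eb) (ns t c d ea eb) {v} ea = ci s t {v} ea + ci s t {v} ec ∧
       ci (ns s a b ea eb) (ns t c d ea eb) {v} eb = ci s t {v} eb + ci s t {v} ed ∧
       ci s t {v} f = 0) := by
    intro v hvx hvy
    unfold ci
    rw [if_congr (K.Ea'.cr {v}) rfl rfl, if_congr (Eb'.cr {v}) rfl rfl,
      if_congr (K.Ef.cr {v}) rfl rfl, if_congr (K.Ea.cr {v}) rfl rfl,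
      if_congr (K.Eb.cr {v}) rfl rfl, if_congr (K.Ec.cr {v}) rfl rfl,
      if_congr (K.Ed.cr {v}) rfl rfl]
    simp only [mem_singleton, hvx.symm, hvy.symm, false_iff, not_not, not_true, if_false,
      iff_self, and_true]
    have h1 : ¬ (a = v ∧ c = v) := fun h => K.ac (h.1.trans h.2.symm)
    have h2 : ¬ (b = v ∧ d = v) := fun h => K.bd (h.1.trans h.2.symm)
    constructor
    · by_cases e1 : a = v <;> by_cases e2 : c = v <;> simp [e1, e2] at h1 ⊢
    · by_cases e3 : b = v <;> by_cases e4 : d = v <;> simp [e3, e4] at h2 ⊢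
  have hxvals : ci s t {x} f = 1 ∧ ci s t {x} ea = 1 ∧ ci s t {x} eb = 1 ∧
      ci s t {x} ec = 0 ∧ ci s t {x} ed = 0 := by
    simp only [ci_eq_one, ci_eq_zero, K.Ef.cr, K.Ea.cr, K.Eb.cr, K.Ec.cr, K.Ed.cr, mem_singleton,
      K.ax, K.bx, K.cx, K.dx, K.xy.symm]
    simp
  have hyvals : ci s t {y} f = 1 ∧ ci s t {y} ea = 0 ∧ ci s t {y} eb = 0 ∧
      ci s t {y} ec = 1 ∧ ci s t {y} ed = 1 := by
    simp only [ci_eq_one, ci_eq_zero, K.Ef.cr, K.Ea.cr, K.Eb.cr, K.Ec.cr, K.Ed.cr, mem_singleton,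
      K.ay, K.bY, K.cy, K.dy, K.xy]
    simp
  by_cases hA : ea ∈ M'
  · have hB : eb ∉ M' := fun h2 => hnot ⟨hA, h2⟩
    have n1 : ec ∉ insert ea M0 := by
      rw [mem_insert, not_or]
      exact ⟨K.aC.symm, c0⟩
    refine ⟨insert ec (insert ea M0), ?_, ?_, ?_, ?_⟩
    · intro g hg
      rw [mem_insert, mem_insert] at hg
      rcases hg with hg | hg | hg
      · exact hg ▸ K.mc
      · exact hg ▸ K.ma
      · exact hM0es hg
    · exact mem_insert_of_mem (mem_insert_of_mem heM0)
    · intro v hv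
      rw [cn_insert n1, cn_insert a0]
      by_cases hvx : v = x
      · rw [hvx, hM0x, hxvals.2.1, hxvals.2.2.2.1]
      by_cases hvy : v = y
      · rw [hvy, hM0y, hyvals.2.1, hyvals.2.2.2.1]
      have h1 := hpm v (mem_nvs.2 ⟨hv, hvx, hvy⟩)
      rw [hdec v, if_pos hA, if_neg hB, (hvals v hvx hvy).1] at h1
      omega
    · refine hfin _ ?_ (fun _ => hA) (fun _ => hA)
      intro g hg hgM
      rw [mem_insert, mem_insert] at hgM
      rcases hgM with h1 | h1 | h1
      · exact absurd (h1 ▸ hg) ec_es0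
      · exact absurd (h1 ▸ hg) ea_es0
      · exact (mem_inter.1 h1).1
  · by_cases hB : eb ∈ M'
    · have n1 : ed ∉ insert eb M0 := by
        rw [mem_insert, not_or]
        exact ⟨K.bD.symm, d0⟩
      refine ⟨insert ed (insert eb M0), ?_, ?_, ?_, ?_⟩
      · intro g hg
        rw [mem_insert, mem_insert] at hg
        rcases hg with hg | hg | hg
        · exact hg ▸ K.md
        · exact hg ▸ K.mb
        · exact hM0es hg
      · exact mem_insert_of_mem (mem_insert_of_mem heM0)
      · intro v hv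
        rw [cn_insert n1, cn_insert b0]
        by_cases hvx : v = x
        · rw [hvx, hM0x, hxvals.2.2.1, hxvals.2.2.2.2]
        by_cases hvy : v = y
        · rw [hvy, hM0y, hyvals.2.2.1, hyvals.2.2.2.2]
        have h1 := hpm v (mem_nvs.2 ⟨hv, hvx, hvy⟩)
        rw [hdec v, if_neg hA, if_pos hB, (hvals v hvx hvy).2.1] at h1
        omega
      · refine hfin _ ?_ ?_ ?_
        · intro g hg hgM
          rw [mem_insert, mem_insert] at hgM
          rcases hgM with h1 | h1 | h1
          · exact absurd (h1 ▸ hg) ed_es0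
          · exact absurd (h1 ▸ hg) eb_es0
          · exact (mem_inter.1 h1).1
        · intro hgM
          rw [mem_insert, mem_insert] at hgM
          rcases hgM with h1 | h1 | h1
          · exact absurd h1 K.ad
          · exact absurd h1 K.ab
          · exact absurd h1 a0
        · intro hgM
          rw [mem_insert, mem_insert] at hgM
          rcases hgM with h1 | h1 | h1
          · exact absurd h1 K.cd
          · exact absurd h1.symm K.bc
          · exact absurd h1 c0
    · refine ⟨insert f M0, ?_, ?_, ?_, ?_⟩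
      · intro g hg
        rw [mem_insert] at hg
        rcases hg with hg | hg
        · exact hg ▸ K.mf
        · exact hM0es hg
      · exact mem_insert_of_mem heM0
      · intro v hv
        rw [cn_insert f0]
        by_cases hvx : v = x
        · rw [hvx, hM0x, hxvals.1]
        by_cases hvy : v = y
        · rw [hvy, hM0y, hyvals.1]
        have h1 := hpm v (mem_nvs.2 ⟨hv, hvx, hvy⟩)
        rw [hdec v, if_neg hA, if_neg hB] at h1
        rw [(hvals v hvx hvy).2.2]
        omega
      · refine hfin _ ?_ ?_ ?_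
        · intro g hg hgM
          rw [mem_insert] at hgM
          rcases hgM with h1 | h1
          · exact absurd (h1 ▸ hg) f_es0
          · exact (mem_inter.1 h1).1
        · intro hgM
          rw [mem_insert] at hgM
          rcases hgM with h1 | h1
          · exact absurd h1.symm K.fa
          · exact absurd h1 a0
        · intro hgM
          rw [mem_insert] at hgM
          rcases hgM with h1 | h1
          · exact absurd h1.symm K.fc
          · exact absurd h1 c0

end Conf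

end OddEight
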