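import Pool.Agent.Lib.OddEight.Cir

/-! Minimal sets left by one edge of the graph obtained by deleting one half of an even circuit. -/

set_option autoImplicit false

namespace OddEight

open Finset Classical

variable {V E : Type*} {s t : E → V} {vs : Finset V} {es F P : Finset E} {C : Finset V}

private lemma lf_both (c : Cir s t vs es F C P) {g : E} (hg : g ∈ es) (hF : g ∉ F) :
    s g ∈ C ↔ t g ∈ C := by
  by_contra h
  exact hF (c.comp.cl.2 g hg h)

private lemma lf_oth (c : Cir s t vs es F C P) {g : E} (hg : g ∈ oth s es F C P) :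
    s g ∈ C ∧ t g ∈ C := by
  unfold oth at hg
  rw [mem_filter] at hg
  exact ⟨hg.2.2.2, (lf_both c hg.1 hg.2.1).1 hg.2.2.2⟩

private lemma lf_sub : oth s es F C P ⊆ es := filter_subset _ _

private lemma lf_cr_sing {g : E} {v : V} : cr s t {v} g → s g = v ∨ t g = v := by
  intro h
  by_contra hne
  rw [not_or] at hne
  apply h
  simp [hne.1, hne.2]

private lemma lf_split (X : Finset V) :
    cn s t es X = cn s t (hh s es F C P) X + cn s t (oth s es F C P) X := by
  unfold hh
  have h1 : Disjoint (es \ oth s es F C P) (oth s es F C P) := sdiff_disjoint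
  rw [← cn_union h1, sdiff_union_of_subset lf_sub]

private lemma lf_F (h : Hyp s t vs es F) (c : Cir s t vs es F C P) {v : V} (hv : v ∈ C) :
    cn s t F {v} = 1 := by
  have h1 := h.cubic v (c.comp.cl.1 hv)
  have h2 := h.join v (c.comp.cl.1 hv)
  have h3 := c.pone v hv
  have h4 : cn s t (P ∪ F) {v} ≤ cn s t es {v} := cn_mono (union_subset c.psub h.sub) _
  rw [cn_union c.pf] at h4
  obtain ⟨k, hk⟩ := h2
  omega

private lemma lf_oth_in (h : Hyp s t vs es F) (c : Cir s t vs es F C P) {v : V} (hv : v ∈ C) :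
    cn s t (oth s es F C P) {v} = 1 := by
  have h1 := h.cubic v (c.comp.cl.1 hv)
  have h3 := c.pone v hv
  have h5 := lf_F h c hv
  have hd1 : Disjoint (oth s es F C P) (P ∪ F) := by
    rw [disjoint_left]
    intro g h1 h2
    unfold oth at h1
    rw [mem_filter] at h1
    rw [mem_union] at h2
    rcases h2 with h2 | h2
    · exact h1.2.2.1 h2
    · exact h1.2.1 h2
  have h6 : cn s t (oth s es F C P ∪ (P ∪ F)) {v} = cn s t es {v} := by
    unfold cn
    refine Finset.sum_subset (union_subset lf_sub (union_subset c.psub h.sub)) ?_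
    intro g hg hn
    rw [ci_eq_zero]
    intro hc
    rw [mem_union, mem_union, not_or, not_or] at hn
    apply hn.1
    unfold oth
    rw [mem_filter]
    refine ⟨hg, hn.2.2, hn.2.1, ?_⟩
    rcases lf_cr_sing hc with h7 | h7
    · rw [h7]
      exact hv
    · exact (lf_both c hg hn.2.2).2 (h7.symm ▸ hv)
  rw [cn_union hd1, cn_union c.pf] at h6
  omega

private lemma lf_hh_in (h : Hyp s t vs es F) (c : Cir s t vs es F C P) {v : V} (hv : v ∈ C) :
    cn s t (hh s es F C P) {v} = 2 := by
  have h1 := h.cubic v (c.comp.cl.1 hv)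
  have h2 := lf_split (s := s) (t := t) (es := es) (F := F) (P := P) (C := C) {v}
  have h3 := lf_oth_in h c hv
  omega

/-- parity -/
private lemma lf_par (h : Hyp s t vs es F) (c : Cir s t vs es F C P) {X : Finset V}
    (hX : X ⊆ vs) : Odd (cn s t (hh s es F C P) X) ↔ Odd (X \ C).card := by
  have h1 : Odd (cn s t es X) ↔ Odd X.card :=
    odd_cn h.noloop fun v hv => by
      rw [h.cubic v (hX hv)]
      decide
  have h2 : Odd (cn s t (oth s es F C P) (X ∩ C)) ↔ Odd (X ∩ C).card :=
    odd_cn (fun g hg => h.noloop g (lf_sub hg)) fun v hv => by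
      rw [lf_oth_in h c (mem_inter.1 hv).2]
      decide
  have h3 : cn s t (oth s es F C P) (X ∩ C) = cn s t (oth s es F C P) X := by
    unfold cn ci
    refine Finset.sum_congr rfl fun g hg => if_congr ?_ rfl rfl
    have h4 := lf_oth c hg
    unfold cr
    simp only [mem_inter, h4.1, h4.2, and_true]
  rw [h3] at h2
  have h5 := lf_split (s := s) (t := t) (es := es) (F := F) (P := P) (C := C) X
  have h6 := card_sdiff_add_card_inter X C
  rw [← Nat.not_even_iff_odd, ← Nat.not_even_iff_odd] at h1 h2 ⊢
  rw [h5, Nat.even_add, ← h6, Nat.even_add] at h1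
  tauto

/-- edges outside the circuit and outside `F` do not cross -/
private lemma lf_D (h : Hyp s t vs es F) (c : Cir s t vs es F C P) {X : Finset V}
    (hX : Br s t vs es F C P X) {g : E} (hg : g ∈ es) (hF : g ∉ F) (hC : s g ∉ C) :
    ¬ cr s t X g := by
  set D := es.filter fun g => g ∉ F ∧ s g ∉ C with hD
  have hDs : D ⊆ es := filter_subset _ _
  have hev : ∀ v ∈ X, Even (cn s t D {v}) := by
    intro v hv
    have hvs := hX.1 hv
    by_cases hvC : v ∈ C
    · have : cn s t D {v} = 0 := by
        rw [cn_eq_zero]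
        intro g' hg' hc
        rw [hD, mem_filter] at hg'
        rcases lf_cr_sing hc with h7 | h7
        · exact hg'.2.2 (h7.symm ▸ hvC)
        · exact hg'.2.2 ((lf_both c hg'.1 hg'.2.1).2 (h7.symm ▸ hvC))
      rw [this]
      exact Even.zero
    · have hd : Disjoint D F := by
        rw [disjoint_left]
        intro g' h1 h2
        rw [hD, mem_filter] at h1
        exact h1.2.1 h2
      have h6 : cn s t (D ∪ F) {v} = cn s t es {v} := by
        unfold cn
        refine Finset.sum_subset (union_subset hDs h.sub) ?_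
        intro g' hg' hn
        rw [ci_eq_zero]
        intro hc
        rw [mem_union, not_or] at hn
        apply hn.1
        rw [hD, mem_filter]
        refine ⟨hg', hn.2, fun hsC => hvC ?_⟩
        rcases lf_cr_sing hc with h7 | h7
        · exact h7 ▸ hsC
        · exact h7 ▸ (lf_both c hg' hn.2).1 hsC
      rw [cn_union hd, h.cubic v hvs] at h6
      have h7 := h.join v hvs
      obtain ⟨k, hk⟩ := h7
      rw [hk] at h6
      by_contra hne
      rw [Nat.not_even_iff_odd] at hne
      obtain ⟨l, hl⟩ := hne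
      omega
  have hle : cn s t D X ≤ cn s t (hh s es F C P) X := by
    apply cn_mono
    intro g' hg'
    rw [hD, mem_filter] at hg'
    unfold hh oth
    rw [mem_sdiff, mem_filter]
    exact ⟨hg'.1, fun h' => hg'.2.2 h'.2.2.2⟩
  have hsum := sum_cn (s := s) (t := t) (A := D) (fun g' hg' => h.noloop g' (hDs hg')) X
  have hE : Even (cn s t D X) := by
    have h8 : Even (∑ v ∈ X, cn s t D {v}) := Finset.even_sum _ hev
    rw [hsum, Nat.even_add] at h8
    exact h8.2 (even_two_mul _)
  rw [hX.2] at hle
  have h0 : cn s t D X = 0 := by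
    obtain ⟨k, hk⟩ := hE
    omega
  rw [cn_eq_zero] at h0
  exact h0 g (by rw [hD, mem_filter]; exact ⟨hg, hF, hC⟩)

private lemma lf_symm {X : Finset V} {v : V} (hv : v ∈ X) {g : E} (hn : s g ≠ t g) :
    cr s t (X.erase v) g ↔ ¬ (cr s t X g ↔ cr s t {v} g) := by
  unfold cr
  simp only [mem_erase, mem_singleton]
  by_cases h1 : s g = v
  · have h2 : t g ≠ v := fun h => hn (h1.trans h.symm)
    have h3 : s g ∈ X := h1 ▸ hv
    simp [h1, h2, hv]
  · by_cases h2 : t g = v
    · simp [h1, h2, hv]
    · simp [h1, h2]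

theorem leaf_facts (h : Hyp s t vs es F) (c : Cir s t vs es F C P) {X : Finset V}
    (hX : Leaf s t vs es F C P X) : Odd (X \ C).card ∧ Cl s t vs es F (X \ C) ∧
      (C ∩ X).Nonempty ∧ (∀ g ∈ P, ¬ cr s t X g) ∧
      ∃ f ∈ F, cr s t X f ∧ ¬ (s f ∈ X ∩ C) ∧ ¬ (t f ∈ X ∩ C) ∧
        ∀ g ∈ hh s es F C P, cr s t X g → g = f := by
  have hB := hX.1
  have hodd : Odd (X \ C).card := by
    rw [← lf_par h c hB.1, hB.2]
    decide
  have h1 := hB.2
  rw [cn_eq_card, card_eq_one] at h1
  obtain ⟨f, hf⟩ := h1
  have hfm : f ∈ (hh s es F C P).filter (cr s t X) := by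
    rw [hf]
    exact mem_singleton_self _
  rw [mem_filter] at hfm
  have huniq : ∀ g ∈ hh s es F C P, cr s t X g → g = f := by
    intro g hg hc
    have : g ∈ (hh s es F C P).filter (cr s t X) := mem_filter.2 ⟨hg, hc⟩
    rw [hf, mem_singleton] at this
    exact this
  have hfes : f ∈ es := (mem_sdiff.1 hfm.1).1
  have hfo : f ∉ oth s es F C P := (mem_sdiff.1 hfm.1).2
  -- ends of `f` in `X` are outside the circuit
  have hend : ∀ v ∈ X, v ∈ C → ¬ cr s t {v} f := by
    intro v hvX hvC hc
    have hdeg := lf_hh_in h c hvC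
    have hbr : Br s t vs es F C P (X.erase v) := by
      refine ⟨(erase_subset _ _).trans hB.1, ?_⟩
      rw [cn_eq_card] at hdeg ⊢
      rw [card_eq_one]
      have hfv : f ∈ (hh s es F C P).filter (cr s t {v}) := mem_filter.2 ⟨hfm.1, hc⟩
      have h2 : (((hh s es F C P).filter (cr s t {v})).erase f).card = 1 := by
        rw [card_erase_of_mem hfv, hdeg]
      rw [card_eq_one] at h2
      obtain ⟨j, hj⟩ := h2
      refine ⟨j, ?_⟩
      rw [← hj]
      ext g
      rw [mem_filter, mem_erase, mem_filter]
      constructor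
      · rintro ⟨hg, hgc⟩
        rw [lf_symm hvX (h.noloop g (mem_sdiff.1 hg).1)] at hgc
        by_cases hgf : g = f
        · exfalso
          apply hgc
          rw [hgf]
          exact ⟨fun _ => hc, fun _ => hfm.2⟩
        · have h3 : ¬ cr s t X g := fun h' => hgf (huniq g hg h')
          refine ⟨hgf, hg, ?_⟩
          by_contra h4
          exact hgc ⟨fun h' => absurd h' h3, fun h' => absurd h' h4⟩
      · rintro ⟨hgf, hg, hgc⟩
        refine ⟨hg, ?_⟩
        rw [lf_symm hvX (h.noloop g (mem_sdiff.1 hg).1)]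
        intro h3
        exact hgf (huniq g hg (h3.2 hgc))
    have := hX.2 _ (erase_subset _ _) hbr
    rw [erase_eq_self] at this
    exact this hvX
  have hs : ¬ (s f ∈ X ∩ C) := by
    intro hm
    rw [mem_inter] at hm
    apply hend _ hm.1 hm.2
    unfold cr
    simp only [mem_singleton, true_iff]
    exact fun h' => h.noloop f hfes h'.symm
  have ht : ¬ (t f ∈ X ∩ C) := by
    intro hm
    rw [mem_inter] at hm
    apply hend _ hm.1 hm.2
    unfold cr
    simp only [mem_singleton, iff_true]
    exact h.noloop f hfes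
  have hP : ∀ g ∈ P, ¬ cr s t X g := by
    intro g hg hc
    have hgh : g ∈ hh s es F C P := by
      unfold hh oth
      rw [mem_sdiff, mem_filter]
      exact ⟨c.psub hg, fun h' => h'.2.2.1 hg⟩
    have hgf := huniq g hgh hc
    have he := c.pends g hg
    rw [hgf] at he hc
    apply hc
    constructor
    · intro h1
      exact absurd (mem_inter.2 ⟨h1, he.1⟩) hs
    · intro h1
      exact absurd (mem_inter.2 ⟨h1, he.2⟩) ht
  have hfP : f ∉ P := fun h' => hP f h' hfm.2
  have hfF : f ∈ F := by
    by_contra hF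
    by_cases hsC : s f ∈ C
    · apply hfo
      unfold oth
      rw [mem_filter]
      exact ⟨hfes, hF, hfP, hsC⟩
    · exact lf_D h c hB hfes hF hsC hfm.2
  refine ⟨hodd, ⟨sdiff_subset.trans hB.1, ?_⟩, ?_, hP, f, hfF, hfm.2, hs, ht, huniq⟩
  · intro g hg hc
    by_contra hF
    have hb := lf_both c hg hF
    by_cases hsC : s g ∈ C
    · apply hc
      simp only [mem_sdiff, hsC, hb.1 hsC, not_true_eq_false, and_false]
    · have htC : t g ∉ C := fun h' => hsC (hb.2 h')
      apply lf_D h c hB hg hF hsC
      intro h'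
      apply hc
      simp only [mem_sdiff, hsC, htC, not_false_eq_true, and_true]
      exact h'
  · by_contra hne
    rw [not_nonempty_iff_eq_empty] at hne
    have hdis : X \ C = X := by
      rw [Finset.sdiff_eq_self_iff_disjoint, disjoint_iff_inter_eq_empty, inter_comm]
      exact hne
    rw [hdis] at hodd
    have h3 := h.oddcut X hB.1 hodd
    have h5 := lf_split (s := s) (t := t) (es := es) (F := F) (P := P) (C := C) X
    have h6 : cn s t (oth s es F C P) X = 0 := by
      rw [cn_eq_zero]
      intro g hg hc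
      have h4 := lf_oth c hg
      apply hc
      constructor
      · intro h7
        have : s g ∈ C ∩ X := mem_inter.2 ⟨h4.1, h7⟩
        rw [hne] at this
        exact absurd this (notMem_empty _)
      · intro h7
        have : t g ∈ C ∩ X := mem_inter.2 ⟨h4.2, h7⟩
        rw [hne] at this
        exact absurd this (notMem_empty _)
    have h7 := hB.2
    omega

theorem leaf_disj (h : Hyp s t vs es F) (c : Cir s t vs es F C P) {X Z : Finset V}
    (hX : Leaf s t vs es F C P X) (hZ : Leaf s t vs es F C P Z) (hne : X ≠ Z) :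
    Disjoint X Z := by
  have hXs := hX.1.1
  have hZs := hZ.1.1
  have oX : Odd (X \ C).card := by
    rw [← lf_par h c hXs, hX.1.2]
    decide
  have oZ : Odd (Z \ C).card := by
    rw [← lf_par h c hZs, hZ.1.2]
    decide
  have hx1 := hX.1.2
  have hz1 := hZ.1.2
  by_cases ho : Odd ((X ∩ Z) \ C).card
  · exfalso
    have hU : Odd ((X ∪ Z) \ C).card := by
      have e1 := card_union_add_card_inter (X \ C) (Z \ C)
      have e2 : (X \ C) ∪ (Z \ C) = (X ∪ Z) \ C := by
        ext v
        simp only [mem_sdiff, mem_union]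
        tauto
      have e3 : (X \ C) ∩ (Z \ C) = (X ∩ Z) \ C := by
        ext v
        simp only [mem_sdiff, mem_inter]
        tauto
      rw [e2, e3] at e1
      obtain ⟨k1, hk1⟩ := oX
      obtain ⟨k2, hk2⟩ := oZ
      obtain ⟨k3, hk3⟩ := ho
      rw [hk1, hk2, hk3] at e1
      by_contra hE
      rw [Nat.not_odd_iff_even] at hE
      obtain ⟨k4, hk4⟩ := hE
      omega
    rw [← lf_par h c (inter_subset_left.trans hXs)] at ho
    rw [← lf_par h c (union_subset hXs hZs)] at hU
    have hsub := cn_submod s t (hh s es F C P) X Z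
    have h1 : cn s t (hh s es F C P) (X ∩ Z) = 1 := by
      obtain ⟨k1, hk1⟩ := ho
      obtain ⟨k2, hk2⟩ := hU
      omega
    have h2 := hX.2 _ inter_subset_left ⟨inter_subset_left.trans hXs, h1⟩
    have h3 := hZ.2 _ inter_subset_right ⟨inter_subset_left.trans hXs, h1⟩
    exact hne (h2.symm.trans h3)
  · have o1 : Odd ((X \ Z) \ C).card := by
      have e1 := card_sdiff_add_card_inter (X \ C) (Z \ C)
      have e2 : (X \ C) \ (Z \ C) = (X \ Z) \ C := by
        ext v
        simp only [mem_sdiff]
        tauto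
      have e3 : (X \ C) ∩ (Z \ C) = (X ∩ Z) \ C := by
        ext v
        simp only [mem_sdiff, mem_inter]
        tauto
      rw [e2, e3] at e1
      rw [Nat.not_odd_iff_even] at ho
      obtain ⟨k1, hk1⟩ := oX
      obtain ⟨k3, hk3⟩ := ho
      by_contra hE
      rw [Nat.not_odd_iff_even] at hE
      obtain ⟨k4, hk4⟩ := hE
      omega
    have o2 : Odd ((Z \ X) \ C).card := by
      have e1 := card_sdiff_add_card_inter (Z \ C) (X \ C)
      have e2 : (Z \ C) \ (X \ C) = (Z \ X) \ C := by
        ext v
        simp only [mem_sdiff]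
        tauto
      have e3 : (Z \ C) ∩ (X \ C) = (X ∩ Z) \ C := by
        ext v
        simp only [mem_sdiff, mem_inter]
        tauto
      rw [e2, e3] at e1
      rw [Nat.not_odd_iff_even] at ho
      obtain ⟨k1, hk1⟩ := oZ
      obtain ⟨k3, hk3⟩ := ho
      by_contra hE
      rw [Nat.not_odd_iff_even] at hE
      obtain ⟨k4, hk4⟩ := hE
      omega
    rw [← lf_par h c (sdiff_subset.trans hXs)] at o1
    rw [← lf_par h c (sdiff_subset.trans hZs)] at o2
    have hpos := cn_posimod s t (hh s es F C P) X Z
    have h1 : cn s t (hh s es F C P) (X \ Z) = 1 := by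
      obtain ⟨k1, hk1⟩ := o1
      obtain ⟨k2, hk2⟩ := o2
      omega
    have h2 := hX.2 _ sdiff_subset ⟨sdiff_subset.trans hXs, h1⟩
    rw [← Finset.sdiff_eq_self_iff_disjoint]
    exact h2

end OddEight
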