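import Pool.Agent.Lib.OddEight.Cir

/-! At most eight vertices meet all closed odd sets. -/

set_option autoImplicit false

namespace OddEight

open Finset Classical

variable {V E : Type*} {s t : E → V} {vs : Finset V} {es F : Finset E}

private lemma mt_inter {X Z : Finset V} (hX : Cl s t vs es F X) (hZ : Cl s t vs es F Z) :
    Cl s t vs es F (X ∩ Z) := by
  refine ⟨inter_subset_left.trans hX.1, fun g hg hc => ?_⟩
  by_contra hF
  have h1 : ¬ cr s t X g := fun h => hF (hX.2 g hg h)
  have h2 : ¬ cr s t Z g := fun h => hF (hZ.2 g hg h)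
  unfold cr at h1 h2 hc
  simp only [mem_inter] at hc
  tauto

private lemma mt_sdiff {X Z : Finset V} (hX : Cl s t vs es F X) (hZ : Cl s t vs es F Z) :
    Cl s t vs es F (X \ Z) := by
  refine ⟨sdiff_subset.trans hX.1, fun g hg hc => ?_⟩
  by_contra hF
  have h1 : ¬ cr s t X g := fun h => hF (hX.2 g hg h)
  have h2 : ¬ cr s t Z g := fun h => hF (hZ.2 g hg h)
  unfold cr at h1 h2 hc
  simp only [mem_sdiff] at hc
  tauto

/-- every closed odd set contains an odd component -/
private lemma mt_min : ∀ n : ℕ, ∀ X : Finset V, X.card = n → Cl s t vs es F X → Odd X.card →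
    ∃ Y ⊆ X, Comp s t vs es F Y ∧ Odd Y.card := by
  intro n
  induction n using Nat.strong_induction_on with
  | _ n ih =>
    intro X hn hX ho
    by_cases hc : Comp s t vs es F X
    · exact ⟨X, Subset.refl _, hc, ho⟩
    · have hne : X.Nonempty := by
        rw [← card_pos]
        exact ho.pos
      have : ∃ Z, Cl s t vs es F Z ∧ ¬ (X ⊆ Z) ∧ ¬ Disjoint X Z := by
        by_contra hno
        push Not at hno
        apply hc
        refine ⟨hX, hne, fun Z hZ => ?_⟩
        by_contra h2
        rw [not_or] at h2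
        exact h2.2 (hno Z hZ h2.1)
      obtain ⟨Z, hZ, h1, h2⟩ := this
      have e1 : (X ∩ Z).card + (X \ Z).card = X.card := card_inter_add_card_sdiff X Z
      have p1 : 0 < (X ∩ Z).card := by
        rw [card_pos]
        rw [disjoint_iff_inter_eq_empty] at h2
        exact nonempty_iff_ne_empty.2 h2
      have p2 : 0 < (X \ Z).card := by
        rw [card_pos, sdiff_nonempty]
        exact h1
      rcases Nat.even_or_odd (X ∩ Z).card with h3 | h3
      · have h4 : Odd (X \ Z).card := by
          rw [← e1, Nat.odd_add'] at ho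
          exact ho.2 h3
        obtain ⟨Y, hY, hY2⟩ := ih (X \ Z).card (by omega) (X \ Z) rfl (mt_sdiff hX hZ) h4
        exact ⟨Y, hY.trans sdiff_subset, hY2⟩
      · obtain ⟨Y, hY, hY2⟩ := ih (X ∩ Z).card (by omega) (X ∩ Z) rfl (mt_inter hX hZ) h3
        exact ⟨Y, hY.trans inter_subset_left, hY2⟩

theorem exists_T (h : Hyp s t vs es F) : ∃ T ⊆ vs, T.card ≤ 8 ∧
    ∀ X, Cl s t vs es F X → Odd X.card → (X ∩ T).Nonempty := by
  rcases isEmpty_or_nonempty V with hV | hV
  · refine ⟨∅, empty_subset _, by simp, fun X _ ho => ?_⟩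
    rw [eq_empty_of_isEmpty X] at ho
    simp at ho
  set K : Finset (Finset V) := vs.powerset.filter fun C => Comp s t vs es F C ∧ Odd C.card
    with hK
  have hmem : ∀ C, C ∈ K ↔ Comp s t vs es F C ∧ Odd C.card := by
    intro C
    rw [hK, mem_filter, mem_powerset]
    exact ⟨fun h => h.2, fun h => ⟨h.1.cl.1, h⟩⟩
  have hdis : ∀ C ∈ K, ∀ C' ∈ K, C ≠ C' → Disjoint C C' := by
    intro C hC C' hC' hne
    rw [hmem] at hC hC'
    rcases hC.1.min C' hC'.1.cl with h1 | h1
    · rcases hC'.1.min C hC.1.cl with h2 | h2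
      · exact absurd (Subset.antisymm h1 h2) hne
      · exact h2.symm
    · exact h1
  have hcard : K.card ≤ 8 := by
    by_contra hc
    push Not at hc
    obtain ⟨K', hK', h9⟩ := exists_subset_card_eq (s := K) (n := 9) (by omega)
    apply h.nine
    have eq := (K'.equivFinOfCardEq h9).symm
    refine ⟨fun i => (eq i : Finset V), fun i => ?_, fun i j hij => ?_⟩
    · have := (hmem _).1 (hK' (eq i).2)
      exact ⟨this.1.cl.1, this.2, this.1.cl.2⟩
    · refine hdis _ (hK' (eq i).2) _ (hK' (eq j).2) fun h => hij ?_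
      exact eq.injective (Subtype.ext h)
  have hch : ∀ C : Finset V, ∃ v : V, C ∈ K → v ∈ C := by
    intro C
    by_cases hC : C ∈ K
    · obtain ⟨v, hv⟩ := ((hmem C).1 hC).1.ne
      exact ⟨v, fun _ => hv⟩
    · exact ⟨hV.some, fun h => absurd h hC⟩
  choose f hf using hch
  refine ⟨K.image f, ?_, card_image_le.trans hcard, fun X hX ho => ?_⟩
  · intro v hv
    rw [mem_image] at hv
    obtain ⟨C, hC, rfl⟩ := hv
    exact ((hmem C).1 hC).1.cl.1 (hf C hC)
  · obtain ⟨Y, hY, hY2⟩ := mt_min X.card X rfl hX ho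
    have hYK : Y ∈ K := (hmem Y).2 hY2
    exact ⟨f Y, mem_inter.2 ⟨hY (hf Y hYK), mem_image_of_mem f hYK⟩⟩

end OddEight
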