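import Pool.Agent.Lib.OddEight.Cir

/-! Segments of an even circuit outside a set. -/

set_option autoImplicit false
set_option linter.unusedVariables false

namespace OddEight

open Finset Classical

variable {V E : Type*} {s t : E → V} {vs : Finset V} {es F P : Finset E} {C : Finset V}

private lemma cn_insert_le {A : Finset E} {g : E} (hg : g ∈ A) {W : Finset V} {w : V}
    (hw : w ∉ W) (h1 : (s g = w ∧ t g ∈ W) ∨ (t g = w ∧ s g ∈ W)) :
    cn s t A (insert w W) + 2 ≤ cn s t A W + cn s t A {w} := by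
  have h2 : (2 : ℕ) = ∑ g' ∈ A, if g' = g then 2 else 0 := by
    rw [Finset.sum_ite_eq' A g, if_pos hg]
  unfold cn
  rw [h2, ← Finset.sum_add_distrib, ← Finset.sum_add_distrib]
  refine Finset.sum_le_sum fun g' _ => ?_
  by_cases h3 : g' = g
  · rw [if_pos h3, h3]
    unfold ci cr
    simp only [mem_insert, mem_singleton]
    rcases h1 with ⟨h4, h5⟩ | ⟨h4, h5⟩
    · have h6 : t g ≠ w := fun h => hw (h ▸ h5)
      simp [h4, h5, h6, hw]
    · have h6 : s g ≠ w := fun h => hw (h ▸ h5)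
      simp [h4, h5, h6, hw]
  · rw [if_neg h3]
    unfold ci cr
    simp only [mem_insert, mem_singleton]
    by_cases a1 : s g' = w <;> by_cases a2 : t g' = w <;> by_cases a3 : s g' ∈ W <;>
      by_cases a4 : t g' ∈ W <;> simp [a1, a2, a3, a4]

/-- the edges of the cycle at a vertex of the circuit -/
lemma Cir.cnD (h : Hyp s t vs es F) (c : Cir s t vs es F C P) {u : V} (hu : u ∈ C) :
    cn s t (es.filter fun g => g ∉ F) {u} = 2 := by
  have huv : u ∈ vs := c.comp.cl.1 hu
  have e1 := cn_filter_add s t es (fun g => g ∈ F) {u}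
  have i1 : es.filter (fun g => g ∈ F) = F := by
    ext g
    simp only [mem_filter]
    exact ⟨fun h => h.2, fun h' => ⟨h.sub h', h'⟩⟩
  rw [i1, h.cubic u huv] at e1
  have hsub : P ⊆ es.filter fun g => g ∉ F := by
    intro g hg
    exact mem_filter.2 ⟨c.psub hg, fun h' => (disjoint_left.1 c.pf) hg h'⟩
  have e2 := cn_mono (s := s) (t := t) hsub {u}
  rw [c.pone u hu] at e2
  obtain ⟨a, ha⟩ := h.join u huv
  omega

theorem seg_exists (h : Hyp s t vs es F) (c : Cir s t vs es F C P) {X : Finset V}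
    (hX : X ⊆ vs) (hP : ∀ g ∈ P, ¬ cr s t X g) (hXC : (C ∩ X).Nonempty) {v : V} (hv : v ∈ C)
    (hvX : v ∉ X) :
    ∃ S, Seg s t es F C P X S ∧ v ∈ S ∧ ∀ W ⊆ S, W.Nonempty →
      (∀ g ∈ es, g ∉ F → s g ∈ S → t g ∈ S → ¬ cr s t W g) → W = S := by
  obtain ⟨S, hS⟩ : ∃ S, S = (C \ X).filter fun u => ∀ W ⊆ C \ X, v ∈ W →
      (∀ g ∈ es, g ∉ F → s g ∈ C \ X → t g ∈ C \ X → ¬ cr s t W g) → u ∈ W := ⟨_, rfl⟩
  have memS : ∀ u, u ∈ S ↔ u ∈ C \ X ∧ ∀ W ⊆ C \ X, v ∈ W →
      (∀ g ∈ es, g ∉ F → s g ∈ C \ X → t g ∈ C \ X → ¬ cr s t W g) → u ∈ W := by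
    intro u
    rw [hS, mem_filter]
  have hSsub : S ⊆ C \ X := fun u hu => ((memS u).1 hu).1
  have hvS : v ∈ S := (memS v).2 ⟨mem_sdiff.2 ⟨hv, hvX⟩, fun _ _ h1 _ => h1⟩
  -- `S` is closed inside `C \ X`
  have clo : ∀ g ∈ es, g ∉ F → s g ∈ C \ X → t g ∈ C \ X → ¬ cr s t S g := by
    intro g hg hgF h1 h2
    unfold cr
    rw [not_not, memS, memS]
    constructor
    · rintro ⟨-, h3⟩
      refine ⟨h2, fun W hW hvW hcl => ?_⟩
      have h4 := hcl g hg hgF h1 h2
      unfold cr at h4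
      rw [not_not] at h4
      exact h4.1 (h3 W hW hvW hcl)
    · rintro ⟨-, h3⟩
      refine ⟨h1, fun W hW hvW hcl => ?_⟩
      have h4 := hcl g hg hgF h1 h2
      unfold cr at h4
      rw [not_not] at h4
      exact h4.2 (h3 W hW hvW hcl)
  -- cycle edges stay in `C`
  have stay : ∀ g ∈ es, g ∉ F → (s g ∈ C ↔ t g ∈ C) := by
    intro g hg hgF
    by_contra h1
    exact hgF (c.comp.cl.2 g hg h1)
  -- cycle edges leaving `S` end in `X`
  have tox : ∀ g ∈ es, g ∉ F → cr s t S g → s g ∈ X ∨ t g ∈ X := by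
    intro g hg hgF hc
    by_contra h1
    push Not at h1
    have h2 : s g ∈ C := by
      by_contra h3
      have h4 : t g ∉ C := fun h => h3 ((stay g hg hgF).2 h)
      apply hc
      constructor
      · intro h5
        exact absurd (mem_sdiff.1 (hSsub h5)).1 h3
      · intro h5
        exact absurd (mem_sdiff.1 (hSsub h5)).1 h4
    have h3 : t g ∈ C := (stay g hg hgF).1 h2
    exact clo g hg hgF (mem_sdiff.2 ⟨h2, h1.1⟩) (mem_sdiff.2 ⟨h3, h1.2⟩) hc
  have dis : Disjoint S X := by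
    rw [disjoint_left]
    intro u hu
    exact (mem_sdiff.1 (hSsub hu)).2
  -- connectivity
  have conn : ∀ W ⊆ S, W.Nonempty →
      (∀ g ∈ es, g ∉ F → s g ∈ S → t g ∈ S → ¬ cr s t W g) → W = S := by
    intro W hWS hne hW
    -- a set `W'` inside `S` not crossed inside `S` is not crossed inside `C \ X`
    have up : ∀ W' ⊆ S, (∀ g ∈ es, g ∉ F → s g ∈ S → t g ∈ S → ¬ cr s t W' g) → v ∈ W' →
        S ⊆ W' := by
      intro W' hW' hcl hvW' u hu
      refine ((memS u).1 hu).2 W' (hW'.trans hSsub) hvW' ?_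
      intro g hg hgF h1 h2 h3
      have h4 := clo g hg hgF h1 h2
      unfold cr at h4
      rw [not_not] at h4
      by_cases h5 : s g ∈ S
      · exact hcl g hg hgF h5 (h4.1 h5) h3
      · have h6 : t g ∉ S := fun h => h5 (h4.2 h)
        apply h3
        exact ⟨fun h7 => absurd (hW' h7) h5, fun h7 => absurd (hW' h7) h6⟩
    by_cases hvW : v ∈ W
    · exact Subset.antisymm hWS (up W hWS hW hvW)
    · exfalso
      have h1 : S ⊆ S \ W := by
        refine up (S \ W) sdiff_subset ?_ (mem_sdiff.2 ⟨hvS, hvW⟩)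
        intro g hg hgF h2 h3 h4
        refine hW g hg hgF h2 h3 ?_
        unfold cr at h4 ⊢
        simp only [mem_sdiff, h2, h3, true_and] at h4
        tauto
      obtain ⟨w, hw⟩ := hne
      exact (mem_sdiff.1 (h1 (hWS hw))).2 hw
  -- the number of cycle edges leaving `S`
  set D := es.filter fun g => g ∉ F with hD
  have hDn : ∀ e ∈ D, s e ≠ t e := fun e he => h.noloop e (mem_filter.1 he).1
  have upper : cn s t D S ≤ 2 := by
    obtain ⟨W, hW1, hW2⟩ := exists_max_image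
      (S.powerset.filter fun W => W.Nonempty ∧ cn s t D W ≤ 2) card
      ⟨{v}, mem_filter.2 ⟨mem_powerset.2 (singleton_subset_iff.2 hvS), singleton_nonempty v,
        (c.cnD h hv).le⟩⟩
    rw [mem_filter, mem_powerset] at hW1
    have h1 : W = S := by
      refine conn W hW1.1 hW1.2.1 ?_
      intro g hg hgF h2 h3 h4
      -- add the end outside `W`
      obtain ⟨w, hwS, hwW, hgw⟩ : ∃ w ∈ S, w ∉ W ∧
          ((s g = w ∧ t g ∈ W) ∨ (t g = w ∧ s g ∈ W)) := by
        unfold cr at h4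
        by_cases h5 : s g ∈ W
        · have h6 : t g ∉ W := fun h => h4 ⟨fun _ => h, fun _ => h5⟩
          exact ⟨t g, h3, h6, Or.inr ⟨rfl, h5⟩⟩
        · have h6 : t g ∈ W := by
            by_contra h
            exact h4 ⟨fun h7 => absurd h7 h5, fun h7 => absurd h7 h⟩
          exact ⟨s g, h2, h5, Or.inl ⟨rfl, h6⟩⟩
      have h7 := cn_insert_le (A := D) (mem_filter.2 ⟨hg, hgF⟩) hwW hgw
      have h8 : cn s t D {w} = 2 := c.cnD h (mem_sdiff.1 (hSsub hwS)).1
      have h9 := hW2 (insert w W) (mem_filter.2 ⟨mem_powerset.2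
        (insert_subset_iff.2 ⟨hwS, hW1.1⟩), insert_nonempty _ _, by omega⟩)
      rw [card_insert_of_notMem hwW] at h9
      omega
    rw [← h1]
    exact hW1.2.2
  have evn : Even (cn s t D S) := by
    have h1 := sum_cn (s := s) (t := t) (A := D) hDn S
    have h2 : ∑ u ∈ S, cn s t D {u} = 2 * S.card := by
      rw [sum_congr rfl fun u hu => c.cnD h (mem_sdiff.1 (hSsub hu)).1, sum_const, smul_eq_mul,
        mul_comm]
    rw [h2] at h1
    refine ⟨S.card - inn s t D S, ?_⟩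
    omega
  have pos : cn s t D S ≠ 0 := by
    intro h0
    rw [cn_eq_zero] at h0
    have h1 : Cl s t vs es F S := by
      refine ⟨fun u hu => c.comp.cl.1 (mem_sdiff.1 (hSsub hu)).1, fun g hg hc => ?_⟩
      by_contra hgF
      exact h0 g (mem_filter.2 ⟨hg, hgF⟩) hc
    rcases c.comp.min S h1 with h2 | h2
    · obtain ⟨w, hw⟩ := hXC
      rw [mem_inter] at hw
      exact (mem_sdiff.1 (hSsub (h2 hw.1))).2 hw.2
    · exact (disjoint_left.1 h2) hv hvS
  have two : cn s t D S = 2 := by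
    obtain ⟨a, ha⟩ := evn
    omega
  have pcl : ∀ g ∈ P, ¬ cr s t S g := by
    intro g hg hc
    have hgF : g ∉ F := fun h' => (disjoint_left.1 c.pf) hg h'
    have h1 := tox g (c.psub hg) hgF hc
    apply hP g hg
    unfold cr at hc ⊢
    have d1 : ∀ u, u ∈ S → u ∉ X := fun u hu => (mem_sdiff.1 (hSsub hu)).2
    have d2 := d1 (s g)
    have d3 := d1 (t g)
    tauto
  have two' : cn s t (oth s es F C P) S = 2 := by
    rw [← two, cn_eq_card, cn_eq_card]
    congr 1
    ext g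
    simp only [mem_filter, oth, hD]
    constructor
    · rintro ⟨⟨h1, h2, -, -⟩, h3⟩
      exact ⟨⟨h1, h2⟩, h3⟩
    · rintro ⟨⟨h1, h2⟩, h3⟩
      refine ⟨⟨h1, h2, fun h4 => pcl g h4 h3, ?_⟩, h3⟩
      by_contra h4
      have h5 : t g ∉ C := fun h => h4 ((stay g h1 h2).2 h)
      apply h3
      constructor
      · intro h6
        exact absurd (mem_sdiff.1 (hSsub h6)).1 h4
      · intro h6
        exact absurd (mem_sdiff.1 (hSsub h6)).1 h5
  refine ⟨S, ⟨fun u hu => (mem_sdiff.1 (hSsub hu)).1, dis, pcl, two', ?_⟩, hvS, conn⟩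
  intro g hg hc
  rw [oth, mem_filter] at hg
  exact tox g hg.1 hg.2.1 hc

end OddEight
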