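import Pool.Agent.Lib.OddEight.Cir

/-! The reduction near the prescribed edge, and the stuck situation. -/

set_option autoImplicit false

namespace OddEight

open Finset Classical

variable {V E : Type*} {s t : E → V} {vs : Finset V} {es F : Finset E}

lemma Ends.symm {g : E} {p q : V} (h : Ends s t g p q) : Ends s t g q p := by
  rcases h with h | h
  · exact Or.inr h
  · exact Or.inl h

lemma Ends.mem {g : E} {p q : V} (h : Ends s t g p q) {S : Finset V} (hp : p ∈ S) (hq : q ∈ S) :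
    s g ∈ S ∧ t g ∈ S := by
  rcases h with h | h <;> rw [h.1, h.2]
  · exact ⟨hp, hq⟩
  · exact ⟨hq, hp⟩

lemma Ends.cross_left {g : E} {p q : V} (h : Ends s t g p q) (hpq : p ≠ q) :
    OddEight.cr s t {p} g := by
  rw [h.cr]
  simp only [mem_singleton, true_iff]
  exact fun h' => hpq h'.symm

lemma Ends.not_cross {g : E} {p q v : V} (h : Ends s t g p q) (hp : p ≠ v) (hq : q ≠ v) :
    ¬ OddEight.cr s t {v} g := by
  rw [h.cr]
  simp [hp, hq]

lemma Ends.unique {g : E} {p q q' : V} (h : Ends s t g p q) (h' : Ends s t g p q')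
    (hpq : p ≠ q) : q' = q := by
  rcases h with ⟨h1, h2⟩ | ⟨h1, h2⟩ <;> rcases h' with ⟨h3, h4⟩ | ⟨h3, h4⟩
  · rw [← h2, ← h4]
  · exact absurd (h4.symm.trans h2) hpq
  · exact absurd (h3.symm.trans h1) hpq
  · rw [← h1, ← h3]

lemma other (h : Hyp s t vs es F) {g : E} (hg : g ∈ es) {u : V} (hc : cr s t {u} g) :
    ∃ p ∈ vs, u ≠ p ∧ Ends s t g u p := by
  have hn := h.noloop g hg
  have he := h.ends g hg
  unfold cr at hc
  simp only [mem_singleton] at hc
  by_cases h1 : s g = u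
  · exact ⟨t g, he.2, h1 ▸ hn, Or.inl ⟨h1, rfl⟩⟩
  · by_cases h2 : t g = u
    · exact ⟨s g, he.1, fun h3 => hn (h3 ▸ h2.symm), Or.inr ⟨rfl, h2⟩⟩
    · exact absurd ⟨fun h' => absurd h' h1, fun h' => absurd h' h2⟩ hc

lemma star (h : Hyp s t vs es F) {u : V} (hu : u ∈ vs) {e : E} (he : e ∈ es)
    (hc : cr s t {u} e) : ∃ e1 ∈ es, ∃ e2 ∈ es, e ≠ e1 ∧ e ≠ e2 ∧ e1 ≠ e2 ∧
      cr s t {u} e1 ∧ cr s t {u} e2 ∧ ∀ g ∈ es, cr s t {u} g → g = e ∨ g = e1 ∨ g = e2 := by
  have h1 := h.cubic u hu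
  rw [cn_eq_card] at h1
  have hm : e ∈ es.filter (cr s t {u}) := mem_filter.2 ⟨he, hc⟩
  have h2 : ((es.filter (cr s t {u})).erase e).card = 2 := by
    rw [card_erase_of_mem hm, h1]
  rw [card_eq_two] at h2
  obtain ⟨e1, e2, h12, h3⟩ := h2
  have m1 : e1 ∈ (es.filter (cr s t {u})).erase e := by rw [h3]; simp
  have m2 : e2 ∈ (es.filter (cr s t {u})).erase e := by rw [h3]; simp
  rw [mem_erase, mem_filter] at m1 m2
  refine ⟨e1, m1.2.1, e2, m2.2.1, m1.1.symm, m2.1.symm, h12, m1.2.2, m2.2.2, ?_⟩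
  intro g hg hgc
  by_cases hge : g = e
  · exact Or.inl hge
  · have : g ∈ (es.filter (cr s t {u})).erase e := mem_erase.2 ⟨hge, mem_filter.2 ⟨hg, hgc⟩⟩
    rw [h3, mem_insert, mem_singleton] at this
    exact Or.inr this

lemma cn_star {A : Finset E} (hA : A ⊆ es) {u : V} {g1 g2 g3 : E} (h12 : g1 ≠ g2)
    (h13 : g1 ≠ g3) (h23 : g2 ≠ g3) (c1 : cr s t {u} g1) (c2 : cr s t {u} g2)
    (c3 : cr s t {u} g3) (hall : ∀ g ∈ es, cr s t {u} g → g = g1 ∨ g = g2 ∨ g = g3) :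
    cn s t A {u} = (if g1 ∈ A then 1 else 0) + (if g2 ∈ A then 1 else 0) +
      (if g3 ∈ A then 1 else 0) := by
  have e1 : A.filter (cr s t {u}) = (({g1, g2, g3} : Finset E).filter fun g => g ∈ A) := by
    ext g
    rw [mem_filter, mem_filter, mem_insert, mem_insert, mem_singleton]
    constructor
    · exact fun h' => ⟨hall g (hA h'.1) h'.2, h'.1⟩
    · rintro ⟨h1 | h1 | h1, h2⟩
      · exact ⟨h2, h1 ▸ c1⟩
      · exact ⟨h2, h1 ▸ c2⟩
      · exact ⟨h2, h1 ▸ c3⟩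
  rw [cn_eq_card, e1, card_filter, sum_insert, sum_insert, sum_singleton, add_assoc]
  · rw [mem_singleton]; exact h23
  · rw [mem_insert, mem_singleton, not_or]; exact ⟨h12, h13⟩

section big

variable (h : Hyp s t vs es F)
  (hcut : ∀ X ⊆ vs, Odd X.card → 3 ≤ X.card → X.card + 3 ≤ vs.card → cn s t es X ≠ 3)
  (h6 : 6 ≤ vs.card)

include h hcut h6

lemma three {S : Finset V} (hS : S ⊆ vs) (hS3 : S.card = 3) {g1 g2 g3 : E} (h12 : g1 ≠ g2)
    (h13 : g1 ≠ g3) (h23 : g2 ≠ g3) (m1 : g1 ∈ es) (m2 : g2 ∈ es) (m3 : g3 ∈ es)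
    (s1 : s g1 ∈ S ∧ t g1 ∈ S) (s2 : s g2 ∈ S ∧ t g2 ∈ S) (s3 : s g3 ∈ S ∧ t g3 ∈ S) : False := by
  have hs := sum_cn h.noloop S
  have h9 : ∑ v ∈ S, cn s t es {v} = 9 := by
    rw [sum_congr rfl fun v hv => h.cubic v (hS hv)]
    simp [hS3]
  have hi : 3 ≤ inn s t es S := by
    unfold inn
    rw [← card_filter]
    have hsub : ({g1, g2, g3} : Finset E) ⊆ es.filter fun e => s e ∈ S ∧ t e ∈ S := by
      intro g hg
      rw [mem_insert, mem_insert, mem_singleton] at hg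
      rw [mem_filter]
      rcases hg with rfl | rfl | rfl
      · exact ⟨m1, s1⟩
      · exact ⟨m2, s2⟩
      · exact ⟨m3, s3⟩
    have := card_le_card hsub
    rwa [card_eq_three.2 ⟨g1, g2, g3, h12, h13, h23, rfl⟩] at this
  have ho : Odd S.card := by rw [hS3]; decide
  have h3 := h.oddcut S hS ho
  exact hcut S hS ho (by omega) (by omega) (by omega)

lemma par {g1 g2 : E} {w w' : V} (hw : w ∈ vs) (hw' : w' ∈ vs) (hww : w ≠ w') (h12 : g1 ≠ g2)
    (m1 : g1 ∈ es) (m2 : g2 ∈ es) (E1 : Ends s t g1 w w') (E2 : Ends s t g2 w w') : False := by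
  obtain ⟨a1, ma1, a2, ma2, n1, n2, n3, c1, c2, hall⟩ := star h hw m1 (E1.cross_left hww)
  -- third edge
  obtain ⟨g3, m3, h13, h23, c3⟩ : ∃ g3 ∈ es, g1 ≠ g3 ∧ g2 ≠ g3 ∧ cr s t {w} g3 := by
    rcases hall g2 m2 (E2.cross_left hww) with h' | h' | h'
    · exact absurd h'.symm h12
    · exact ⟨a2, ma2, n2, h' ▸ n3, c2⟩
    · exact ⟨a1, ma1, n1, h' ▸ n3.symm, c1⟩
  obtain ⟨p, hp, hwp, E3⟩ := other h m3 c3
  obtain ⟨r, hr, hrw, hrw', hs3⟩ : ∃ r ∈ vs, r ≠ w ∧ r ≠ w' ∧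
      (s g3 ∈ ({w, w', r} : Finset V) ∧ t g3 ∈ ({w, w', r} : Finset V)) := by
    by_cases hpw : p = w'
    · have h1 : (vs \ {w, w'}).Nonempty := by
        rw [← card_pos, card_sdiff_of_subset]
        · have := card_le_two (a := w) (b := w')
          omega
        · intro v hv
          rw [mem_insert, mem_singleton] at hv
          rcases hv with rfl | rfl
          · exact hw
          · exact hw'
      obtain ⟨r, hr⟩ := h1
      rw [mem_sdiff, mem_insert, mem_singleton, not_or] at hr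
      exact ⟨r, hr.1, hr.2.1, hr.2.2, E3.mem (by simp) (by simp [hpw])⟩
    · exact ⟨p, hp, hwp.symm, hpw, E3.mem (by simp) (by simp)⟩
  refine three h hcut h6 (S := {w, w', r}) ?_ ?_ h12 h13 h23 m1 m2 m3 (E1.mem (by simp) (by simp))
    (E2.mem (by simp) (by simp)) hs3
  · intro v hv
    rw [mem_insert, mem_insert, mem_singleton] at hv
    rcases hv with rfl | rfl | rfl
    · exact hw
    · exact hw'
    · exact hr
  · exact card_eq_three.2 ⟨w, w', r, hww, hrw.symm, hrw'.symm, rfl⟩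

lemma tri {g1 g2 g3 : E} {w1 w2 w3 : V} (v1 : w1 ∈ vs) (v2 : w2 ∈ vs) (v3 : w3 ∈ vs)
    (n12 : w1 ≠ w2) (n13 : w1 ≠ w3) (n23 : w2 ≠ w3) (m1 : g1 ∈ es) (m2 : g2 ∈ es) (m3 : g3 ∈ es)
    (E1 : Ends s t g1 w1 w2) (E2 : Ends s t g2 w1 w3) (E3 : Ends s t g3 w2 w3) : False := by
  refine three h hcut h6 (S := {w1, w2, w3}) ?_ (card_eq_three.2 ⟨w1, w2, w3, n12, n13, n23, rfl⟩)
    (g1 := g1) (g2 := g2) (g3 := g3) ?_ ?_ ?_ m1 m2 m3 (E1.mem (by simp) (by simp))
    (E2.mem (by simp) (by simp)) (E3.mem (by simp) (by simp))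
  · intro v hv
    rw [mem_insert, mem_insert, mem_singleton] at hv
    rcases hv with rfl | rfl | rfl
    · exact v1
    · exact v2
    · exact v3
  · intro h'
    subst h'
    exact n23 (E2.unique E1 n13)
  · intro h'
    subst h'
    exact E3.not_cross n12.symm n13.symm (E1.cross_left n12)
  · intro h'
    subst h'
    exact E3.not_cross n12.symm n13.symm (E2.cross_left n13)

end big

/-- if two edges at a vertex are in `F`, all edges at this vertex are in `F` -/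
lemma full (h : Hyp s t vs es F) {u : V} (hu : u ∈ vs) {g1 g2 g3 : E} (h12 : g1 ≠ g2)
    (h13 : g1 ≠ g3) (h23 : g2 ≠ g3) (c1 : cr s t {u} g1) (c2 : cr s t {u} g2)
    (c3 : cr s t {u} g3) (hall : ∀ g ∈ es, cr s t {u} g → g = g1 ∨ g = g2 ∨ g = g3)
    (f1 : g1 ∈ F) (f2 : g2 ∈ F) : ∀ g ∈ es, cr s t {u} g → g ∈ F := by
  have h1 := h.join u hu
  rw [cn_star h.sub h12 h13 h23 c1 c2 c3 hall, if_pos f1, if_pos f2] at h1
  have f3 : g3 ∈ F := by
    by_contra hc
    rw [if_neg hc] at h1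
    exact absurd h1 (by decide)
  intro g hg hgc
  rcases hall g hg hgc with h' | h' | h'
  · exact h' ▸ f1
  · exact h' ▸ f2
  · exact h' ▸ f3

/-- the situation at a vertex `x` with an edge outside `F` -/
lemma xstar (h : Hyp s t vs es F) {x : V} (hx : x ∈ vs) {g h0 : E} (hh : h0 ∈ es)
    (hhc : cr s t {x} h0) (hg : g ∈ es) (hgc : cr s t {x} g) (hgF : g ∉ F) :
    ∃ f ∈ es, ∃ ea ∈ es, ∃ eb ∈ es, f ≠ ea ∧ f ≠ eb ∧ ea ≠ eb ∧ cr s t {x} f ∧ cr s t {x} ea ∧
      cr s t {x} eb ∧ (∀ g ∈ es, cr s t {x} g → g = f ∨ g = ea ∨ g = eb) ∧ f ∉ F ∧ ea ∈ F ∧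
      eb ∉ F ∧ f ≠ h0 ∧ (h0 = ea ∨ h0 = eb) := by
  obtain ⟨g1, m1, g2, m2, n1, n2, n3, c1, c2, hall⟩ := star h hx hh hhc
  have hj := h.join x hx
  rw [cn_star h.sub n1 n2 n3 hhc c1 c2 hall] at hj
  by_cases f0 : h0 ∈ F <;> by_cases f1 : g1 ∈ F <;> by_cases f2 : g2 ∈ F <;>
    simp only [f0, f1, f2, if_true, if_false] at hj
  · rcases hall g hg hgc with h' | h' | h'
    · exact absurd (h' ▸ f0) hgF
    · exact absurd (h' ▸ f1) hgF
    · exact absurd (h' ▸ f2) hgF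
  · exact absurd hj (by decide)
  · exact absurd hj (by decide)
  · exact ⟨g1, m1, h0, hh, g2, m2, n1.symm, n3, n2, c1, hhc, c2, fun g hg hc => by
      rcases hall g hg hc with h' | h' | h' <;> simp [h'], f1, f0, f2, n1.symm, Or.inl rfl⟩
  · exact absurd hj (by decide)
  · exact ⟨g2, m2, g1, m1, h0, hh, n3.symm, n2.symm, n1.symm, c2, c1, hhc, fun g hg hc => by
      rcases hall g hg hc with h' | h' | h' <;> simp [h'], f2, f1, f0, n2.symm, Or.inr rfl⟩
  · exact ⟨g1, m1, g2, m2, h0, hh, n3, n1.symm, n2.symm, c1, c2, hhc, fun g hg hc => by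
      rcases hall g hg hc with h' | h' | h' <;> simp [h'], f1, f2, f0, n1.symm, Or.inr rfl⟩
  · exact absurd hj (by decide)

/-- the situation at the other end -/
lemma ystar (h : Hyp s t vs es F) {y : V} (hy : y ∈ vs) {f : E} (hf : f ∈ es)
    (hfc : cr s t {y} f) (hfF : f ∉ F) :
    ∃ ec ∈ es, ∃ ed ∈ es, f ≠ ec ∧ f ≠ ed ∧ ec ≠ ed ∧ cr s t {y} ec ∧
      cr s t {y} ed ∧ (∀ g ∈ es, cr s t {y} g → g = f ∨ g = ec ∨ g = ed) ∧ ec ∈ F ∧ ed ∉ F := by
  obtain ⟨g1, m1, g2, m2, n1, n2, n3, c1, c2, hall⟩ := star h hy hf hfc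
  have hj := h.join y hy
  rw [cn_star h.sub n1 n2 n3 hfc c1 c2 hall, if_neg hfF] at hj
  by_cases f1 : g1 ∈ F <;> by_cases f2 : g2 ∈ F <;>
    simp only [f1, f2, if_true, if_false] at hj
  · exact absurd hj (by decide)
  · exact ⟨g1, m1, g2, m2, n1, n2, n3, c1, c2, hall, f1, f2⟩
  · exact ⟨g2, m2, g1, m1, n2, n1, n3.symm, c2, c1, fun g hg hc => by
      rcases hall g hg hc with h' | h' | h' <;> simp [h'], f2, f1⟩
  · exact absurd hj (by decide)

/-- a configuration near `e` -/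
lemma conf_of (h : Hyp s t vs es F)
    (hcut : ∀ X ⊆ vs, Odd X.card → 3 ≤ X.card → X.card + 3 ≤ vs.card → cn s t es X ≠ 3)
    (h6 : 6 ≤ vs.card) {e : E} (he : e ∈ es) {w w' x : V} {h0 : E} (hw : w ∈ vs) (hw' : w' ∈ vs)
    (hx : x ∈ vs) (hww : w ≠ w') (hxw : w ≠ x) (hxw' : w' ≠ x) (hEe : Ends s t e w w')
    (hh : h0 ∈ es) (_hhe : e ≠ h0) (hEh : Ends s t h0 w x) (hg : ∃ g ∈ es, cr s t {x} g ∧ g ∉ F) :
    ∃ x y a b c d f ea eb ec ed w, Conf s t vs es F x y a b c d f ea eb ec ed ∧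
      e ∈ es0 es f ea eb ec ed ∧ w ∈ nvs vs x y ∧ cr s t {w} e ∧ (w = a ∨ w = b) := by
  obtain ⟨g, hg, hgc, hgF⟩ := hg
  -- the star of `x`
  obtain ⟨f, mf, ea, ma, eb, mb, fa, fb, ab, cf, ca, cb, hallx, Ff, Fa, Fb, fh, hab⟩ :=
    xstar h hx hh (hEh.symm.cross_left hxw.symm) hg hgc hgF
  obtain ⟨y, hy, hxy, Ef⟩ := other h mf cf
  obtain ⟨a, ha, hxa, Ea⟩ := other h ma ca
  obtain ⟨b, hb, hxb, Eb⟩ := other h mb cb
  obtain ⟨ec, mc, ed, md, fc, fd, cd, cc, cd', hally, Fc, Fd⟩ :=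
    ystar h hy mf (Ef.symm.cross_left hxy.symm) Ff
  obtain ⟨c, hc, hyc, Ec⟩ := other h mc cc
  obtain ⟨d, hd, hyd, Ed⟩ := other h md cd'
  have k1 : y ≠ a := fun h' => par h hcut h6 hx hy hxy fa mf ma Ef (h' ▸ Ea)
  have k2 : y ≠ b := fun h' => par h hcut h6 hx hy hxy fb mf mb Ef (h' ▸ Eb)
  have k3 : x ≠ c := fun h' => par h hcut h6 hy hx hxy.symm fc mf mc Ef.symm (h' ▸ Ec)
  have k4 : x ≠ d := fun h' => par h hcut h6 hy hx hxy.symm fd mf md Ef.symm (h' ▸ Ed)
  have k5 : a ≠ c := fun h' => tri h hcut h6 hx hy ha hxy hxa k1 mf ma mc Ef Ea (h' ▸ Ec)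
  have k6 : b ≠ d := fun h' => tri h hcut h6 hx hy hb hxy hxb k2 mf mb md Ef Eb (h' ▸ Ed)
  have na : ¬ cr s t {y} ea := Ea.not_cross hxy k1.symm
  have nb : ¬ cr s t {y} eb := Eb.not_cross hxy k2.symm
  have k7 : y ≠ w := fun h' => par h hcut h6 hx hy hxy fh mf hh Ef (h' ▸ hEh.symm)
  have k8 : y ≠ w' := fun h' =>
    tri h hcut h6 hw hw' hx hww hxw hxw' he hh mf hEe hEh (h' ▸ Ef.symm)
  have nex : ¬ cr s t {x} e := hEe.not_cross hxw hxw'
  have ney : ¬ cr s t {y} e := hEe.not_cross k7.symm k8.symm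
  refine ⟨x, y, a, b, c, d, f, ea, eb, ec, ed, w, ?_, ?_, ?_, hEe.cross_left hww, ?_⟩
  · exact
      { xy := hxy, hx := hx, hy := hy, ha := ha, hb := hb, hc := hc, hd := hd
        ax := hxa.symm, ay := k1.symm, bx := hxb.symm, bY := k2.symm, cx := k3.symm
        cy := hyc.symm, dx := k4.symm, dy := hyd.symm, ac := k5, bd := k6
        mf := mf, ma := ma, mb := mb, mc := mc, md := md
        fa := fa, fb := fb, fc := fc, fd := fd, ab := ab
        aC := fun h' => na (h' ▸ cc), ad := fun h' => na (h' ▸ cd')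
        bc := fun h' => nb (h' ▸ cc), bD := fun h' => nb (h' ▸ cd'), cd := cd
        Ef := Ef, Ea := Ea, Eb := Eb, Ec := Ec, Ed := Ed
        cutx := hallx, cuty := hally, Fa := Fa, Fc := Fc, Ff := Ff, Fb := Fb, Fd := Fd }
  · exact mem_es0.2 ⟨he, fun h' => nex (h' ▸ cf), fun h' => nex (h' ▸ ca), fun h' => nex (h' ▸ cb),
      fun h' => ney (h' ▸ cc), fun h' => ney (h' ▸ cd')⟩
  · exact mem_nvs.2 ⟨hw, hxw, k7.symm⟩
  · rcases hab with h' | h'
    · exact Or.inl (Ea.unique (h' ▸ hEh.symm) hxa)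
    · exact Or.inr (Eb.unique (h' ▸ hEh.symm) hxb)

/-- the reduction near `e` lifts -/
theorem step {n : ℕ} (ih : ∀ m < n, ∀ (s t : E → V) (vs : Finset V) (es F : Finset E),
      vs.card = m → Hyp s t vs es F → ∀ e ∈ es, Concl s t vs es F e)
    (hn : vs.card = n) (h : Hyp s t vs es F)
    (hcut : ∀ X ⊆ vs, Odd X.card → 3 ≤ X.card → X.card + 3 ≤ vs.card → cn s t es X ≠ 3)
    (h6 : 6 ≤ vs.card) {e : E} (he : e ∈ es) {w w' x : V} {h0 : E} (hw : w ∈ vs) (hw' : w' ∈ vs)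
    (hx : x ∈ vs) (hww : w ≠ w') (hwx : w ≠ x) (hwx' : w' ≠ x) (hE : Ends s t e w w')
    (hh : h0 ∈ es) (hne : e ≠ h0) (hEh : Ends s t h0 w x)
    (hg : ∃ g ∈ es, cr s t {x} g ∧ g ∉ F) : Concl s t vs es F e := by
  obtain ⟨x, y, a, b, c, d, f, ea, eb, ec, ed, w, K, he0, hw, hwe, hwab⟩ :=
    conf_of h hcut h6 he hw hw' hx hww hwx hwx' hE hh hne hEh hg
  have hcard := K.card_nvs
  have h' := K.hyp h hcut
  have hen : e ∈ nes es f ec ed := by
    have := mem_es0.1 he0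
    exact mem_nes.2 ⟨this.1, this.2.1, this.2.2.2.2.1, this.2.2.2.2.2⟩
  refine K.lift h he0 hw hwe ?_ (ih _ (by omega) _ _ _ _ _ rfl h' e hen)
  rcases hwab with h1 | h1
  · exact Or.inl (Or.inl h1)
  · exact Or.inr (Or.inl h1)

/-- otherwise the six vertices around `e` have all their edges in `F` -/
theorem stuck (h : Hyp s t vs es F)
    (hcut : ∀ X ⊆ vs, Odd X.card → 3 ≤ X.card → X.card + 3 ≤ vs.card → cn s t es X ≠ 3)
    (h6 : 6 ≤ vs.card) {e : E} (he : e ∈ es)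
    (hno : ¬ ∃ w w' x h0, w ∈ vs ∧ w' ∈ vs ∧ x ∈ vs ∧ w ≠ w' ∧ w ≠ x ∧ w' ≠ x ∧
      Ends s t e w w' ∧ h0 ∈ es ∧ e ≠ h0 ∧ Ends s t h0 w x ∧
      ∃ g ∈ es, cr s t {x} g ∧ g ∉ F) :
    ∃ R : Tree V E, R.e = e ∧ Stk s t vs es F R := by
  have hno' : ∀ w w' x h0, w ∈ vs → w' ∈ vs → x ∈ vs → w ≠ w' → w ≠ x → w' ≠ x →
      Ends s t e w w' → h0 ∈ es → e ≠ h0 → Ends s t h0 w x →
      ∀ g ∈ es, cr s t {x} g → g ∈ F := by
    intro w w' x h0 a1 a2 a3 a4 a5 a6 a7 a8 a9 a10 g hg hgc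
    by_contra hgF
    exact hno ⟨w, w', x, h0, a1, a2, a3, a4, a5, a6, a7, a8, a9, a10, g, hg, hgc, hgF⟩
  have huv : s e ≠ t e := h.noloop e he
  obtain ⟨hu, hv⟩ := h.ends e he
  set u := s e with hudef
  set v := t e with hvdef
  have Euv : Ends s t e u v := Or.inl ⟨rfl, rfl⟩
  obtain ⟨e1, m1, e2, m2, n1, n2, n3, c1, c2, hallu⟩ := star h hu he (Euv.cross_left huv)
  obtain ⟨e3, m3, e4, m4, n4, n5, n6, c3, c4, hallv⟩ :=
    star h hv he (Euv.symm.cross_left huv.symm)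
  obtain ⟨p, hp, hup, Ep⟩ := other h m1 c1
  obtain ⟨q, hq, huq, Eq⟩ := other h m2 c2
  obtain ⟨p', hp', hvp', Ep'⟩ := other h m3 c3
  obtain ⟨q', hq', hvq', Eq'⟩ := other h m4 c4
  have k1 : v ≠ p := fun h' => par h hcut h6 hu hv huv n1 he m1 Euv (h' ▸ Ep)
  have k2 : v ≠ q := fun h' => par h hcut h6 hu hv huv n2 he m2 Euv (h' ▸ Eq)
  have k3 : p ≠ q := fun h' => par h hcut h6 hu hp hup n3 m1 m2 Ep (h' ▸ Eq)
  have k4 : u ≠ p' := fun h' => par h hcut h6 hv hu huv.symm n4 he m3 Euv.symm (h' ▸ Ep')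
  have k5 : u ≠ q' := fun h' => par h hcut h6 hv hu huv.symm n5 he m4 Euv.symm (h' ▸ Eq')
  have k6 : p ≠ p' := fun h' => tri h hcut h6 hu hv hp huv hup k1 he m1 m3 Euv Ep (h' ▸ Ep')
  have k7 : q ≠ p' := fun h' => tri h hcut h6 hu hv hq huv huq k2 he m2 m3 Euv Eq (h' ▸ Ep')
  have k8 : p ≠ q' := fun h' => tri h hcut h6 hu hv hp huv hup k1 he m1 m4 Euv Ep (h' ▸ Eq')
  have k9 : q ≠ q' := fun h' => tri h hcut h6 hu hv hq huv huq k2 he m2 m4 Euv Eq (h' ▸ Eq')
  have k10 : p' ≠ q' := fun h' => par h hcut h6 hv hp' hvp' n6 m3 m4 Ep' (h' ▸ Eq')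
  have sp := hno' u v p e1 hu hv hp huv hup k1 Euv m1 n1 Ep
  have sq := hno' u v q e2 hu hv hq huv huq k2 Euv m2 n2 Eq
  have sp' := hno' v u p' e3 hv hu hp' huv.symm hvp' k4 Euv.symm m3 n4 Ep'
  have sq' := hno' v u q' e4 hv hu hq' huv.symm hvq' k5 Euv.symm m4 n5 Eq'
  have f1 : e1 ∈ F := sp e1 m1 (Ep.symm.cross_left hup.symm)
  have f2 : e2 ∈ F := sq e2 m2 (Eq.symm.cross_left huq.symm)
  have f3 : e3 ∈ F := sp' e3 m3 (Ep'.symm.cross_left hvp'.symm)
  have f4 : e4 ∈ F := sq' e4 m4 (Eq'.symm.cross_left hvq'.symm)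
  have su := full h hu n3 n1.symm n2.symm c1 c2 (Euv.cross_left huv)
    (fun g hg hc => by rcases hallu g hg hc with h' | h' | h' <;> simp [h']) f1 f2
  have sv := full h hv n6 n4.symm n5.symm c3 c4 (Euv.symm.cross_left huv.symm)
    (fun g hg hc => by rcases hallv g hg hc with h' | h' | h' <;> simp [h']) f3 f4
  have hnd : [u, v, p, q, p', q'].Nodup := by
    simp only [List.nodup_cons, List.mem_cons, List.not_mem_nil, or_false, not_or,
      not_false_eq_true, List.nodup_nil, and_true]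
    exact ⟨⟨huv, hup, huq, k4, k5⟩, ⟨k1, k2, hvp', hvq'⟩, ⟨k3, k6, k8⟩, ⟨k7, k9⟩, k10⟩
  have hTe : ({u, v, p, q, p', q'} : Finset V) = [u, v, p, q, p', q'].toFinset := by
    simp
  have hsub : ({u, v, p, q, p', q'} : Finset V) ⊆ vs := by
    intro z hz
    simp only [mem_insert, mem_singleton] at hz
    rcases hz with h' | h' | h' | h' | h' | h' <;> rw [h']
    exacts [hu, hv, hp, hq, hp', hq']
  have hfull : ∀ z ∈ ({u, v, p, q, p', q'} : Finset V), ∀ g ∈ es, cr s t {z} g → g ∈ F := by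
    intro z hz
    simp only [mem_insert, mem_singleton] at hz
    rcases hz with h' | h' | h' | h' | h' | h' <;> rw [h']
    exacts [su, sv, sp, sq, sp', sq']
  exact ⟨⟨u, v, p, q, p', q', e, e1, e2, e3, e4⟩, rfl,
    { h := h, hcut := hcut, nd := hnd, sub := hsub
      E0 := Euv, E1 := Ep, E2 := Eq, E3 := Ep', E4 := Eq'
      m0 := he, m1 := m1, m2 := m2, m3 := m3, m4 := m4
      full := hfull
      alla := hallu
      allb := hallv }⟩

/-- small graphs -/
lemma good_of_card_le (h : Hyp s t vs es F) {M : Finset E} (hM : M.card ≤ 2) :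
    ∀ Z ⊆ vs, Odd Z.card → ∃ g ∈ es, cr s t Z g ∧ ¬ (g ∈ M ∧ g ∈ F) := by
  intro Z hZ hZo
  by_contra hcon
  have h1 := h.oddcut Z hZ hZo
  rw [cn_eq_card] at h1
  have h2 : es.filter (cr s t Z) ⊆ M := by
    intro g hg
    rw [mem_filter] at hg
    by_contra hgM
    exact hcon ⟨g, hg.1, hg.2, fun h' => hgM h'.1⟩
  have := card_le_card h2
  omega

lemma small (h : Hyp s t vs es F) (h4 : vs.card ≤ 5) {e : E} (he : e ∈ es) :
    Concl s t vs es F e := by
  have huv : s e ≠ t e := h.noloop e he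
  obtain ⟨hu, hv⟩ := h.ends e he
  have hpair : ({s e, t e} : Finset V) ⊆ vs := by
    intro v hv'
    rw [mem_insert, mem_singleton] at hv'
    rcases hv' with rfl | rfl
    · exact hu
    · exact hv
  have hc2 := card_le_card hpair
  rw [card_pair huv] at hc2
  have hcT : (vs \ {s e, t e}).card = vs.card - 2 := by
    rw [card_sdiff_of_subset hpair, card_pair huv]
  obtain ⟨k, hk⟩ := h.even_card
  have hpm1 : ∀ v, ci s t {v} e = if v = s e ∨ v = t e then 1 else 0 := by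
    intro v
    have : cr s t {v} e ↔ (v = s e ∨ v = t e) := by
      unfold cr
      simp only [mem_singleton]
      constructor
      · intro h1
        by_contra h2
        rw [not_or] at h2
        exact h1 ⟨fun h3 => absurd h3.symm h2.1, fun h3 => absurd h3.symm h2.2⟩
      · rintro (h1 | h1) h2
        · exact huv (h1.symm.trans (h2.1 h1.symm).symm)
        · exact huv ((h2.2 h1.symm).trans h1)
    unfold ci
    rw [if_congr this rfl rfl]
  rcases Nat.lt_or_ge vs.card 4 with hlt | hge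
  · -- two vertices
    have hvs : vs = {s e, t e} := by
      have h0 : (vs \ {s e, t e}).card = 0 := by omega
      rw [card_eq_zero, sdiff_eq_empty_iff_subset] at h0
      exact Finset.Subset.antisymm h0 hpair
    refine ⟨{e}, singleton_subset_iff.2 he, mem_singleton_self _, ?_,
      good_of_card_le h (by simp)⟩
    intro v hv'
    rw [hvs, mem_insert, mem_singleton] at hv'
    unfold cn
    rw [sum_singleton, hpm1, if_pos hv']
  · have h4' : vs.card = 4 := by omega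
    have hT2 : (vs \ {s e, t e}).card = 2 := by omega
    set T := vs \ {s e, t e} with hT
    have s1 := sum_cn h.noloop ({s e, t e} : Finset V)
    have s2 := sum_cn h.noloop T
    have q1 : ∑ v ∈ ({s e, t e} : Finset V), cn s t es {v} = 6 := by
      rw [sum_congr rfl fun v hv => h.cubic v (hpair hv)]
      simp [card_pair huv]
    have q2 : ∑ v ∈ T, cn s t es {v} = 6 := by
      rw [sum_congr rfl fun v hv => h.cubic v (sdiff_subset hv), sum_const, smul_eq_mul]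
      have hT2' : (vs \ {s e, t e}).card = 2 := hT2
      omega
    have q3 : cn s t es T = cn s t es ({s e, t e} : Finset V) := cn_compl h.ends _
    have q4 : 1 ≤ inn s t es ({s e, t e} : Finset V) := by
      unfold inn
      rw [← card_filter]
      exact card_pos.2 ⟨e, mem_filter.2 ⟨he, by simp, by simp⟩⟩
    have q5 : 1 ≤ inn s t es T := by omega
    unfold inn at q5
    rw [← card_filter] at q5
    obtain ⟨e', he'⟩ := card_pos.1 q5
    rw [mem_filter] at he'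
    have huv' := h.noloop e' he'.1
    have hTe : T = {s e', t e'} := by
      symm
      apply eq_of_subset_of_card_le
      · intro v hv'
        rw [mem_insert, mem_singleton] at hv'
        rcases hv' with rfl | rfl
        · exact he'.2.1
        · exact he'.2.2
      · rw [card_pair huv', hT2]
    have hpm2 : ∀ v, ci s t {v} e' = if v = s e' ∨ v = t e' then 1 else 0 := by
      intro v
      have : cr s t {v} e' ↔ (v = s e' ∨ v = t e') := by
        unfold cr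
        simp only [mem_singleton]
        constructor
        · intro h1
          by_contra h2
          rw [not_or] at h2
          exact h1 ⟨fun h3 => absurd h3.symm h2.1, fun h3 => absurd h3.symm h2.2⟩
        · rintro (h1 | h1) h2
          · exact huv' (h1.symm.trans (h2.1 h1.symm).symm)
          · exact huv' ((h2.2 h1.symm).trans h1)
      unfold ci
      rw [if_congr this rfl rfl]
    have hee : e ≠ e' := by
      rintro rfl
      have := he'.2.1
      rw [hT, mem_sdiff] at this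
      exact this.2 (by simp)
    refine ⟨{e, e'}, ?_, by simp, ?_, good_of_card_le h (card_le_two)⟩
    · intro g hg
      rw [mem_insert, mem_singleton] at hg
      rcases hg with rfl | rfl
      · exact he
      · exact he'.1
    · intro v hv'
      unfold cn
      rw [sum_pair hee, hpm1, hpm2]
      by_cases hvT : v ∈ T
      · have h1 : v = s e' ∨ v = t e' := by
          rw [hTe, mem_insert, mem_singleton] at hvT
          exact hvT
        have h2 : ¬ (v = s e ∨ v = t e) := by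
          intro h3
          rw [hT, mem_sdiff] at hvT
          exact hvT.2 (by rw [mem_insert, mem_singleton]; exact h3)
        rw [if_neg h2, if_pos h1]
      · have h1 : ¬ (v = s e' ∨ v = t e') := by
          intro h3
          apply hvT
          rw [hTe, mem_insert, mem_singleton]
          exact h3
        have h2 : v = s e ∨ v = t e := by
          by_contra h3
          apply hvT
          rw [hT, mem_sdiff]
          refine ⟨hv', fun h4 => h3 ?_⟩
          rw [mem_insert, mem_singleton] at h4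
          exact h4
        rw [if_pos h2, if_neg h1]

end OddEight
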